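import Pool.Agent.NH42.AX.CmpL
import Pool.Agent.TH305.AX.Bar5

/-!
Axisymmetric flows: concave functions of a barrier, and products with functions of time (helper42).
-/

set_option autoImplicit false

open MeasureTheory Set Metric Filter Topology
open scoped ContDiff

namespace Pool.Agent.NH42.AX

open H459R3.NS W221.NS Pool.Agent.TH305.DR Pool.Agent.TH305.AX

/-- A supergradient of a monotone concave function. -/
lemma supergrad {F : ℝ → ℝ} (hc : ConcaveOn ℝ (Ici 0) F) (hm : MonotoneOn F (Ici 0)) {x₀ : ℝ}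
    (hx₀ : 0 < x₀) : ∃ q : ℝ, 0 ≤ q ∧ ∀ x, 0 ≤ x → F x ≤ F x₀ + q * (x - x₀) := by
  obtain ⟨D, hD⟩ : ∃ D : Set ℝ, D = (fun x => (F x₀ - F x) / (x₀ - x)) '' Ico 0 x₀ := ⟨_, rfl⟩
  have hne : D.Nonempty := by
    rw [hD]
    exact ⟨_, 0, ⟨le_rfl, hx₀⟩, rfl⟩
  have hnn : ∀ d ∈ D, 0 ≤ d := by
    rw [hD]
    rintro _ ⟨x, hx, rfl⟩
    exact div_nonneg (sub_nonneg.2 (hm hx.1 hx₀.le hx.2.le)) (by linarith [hx.2])
  have hbd : BddBelow D := ⟨0, hnn⟩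
  refine ⟨sInf D, le_csInf hne hnn, fun x hx => ?_⟩
  rcases lt_trichotomy x x₀ with h1 | h1 | h1
  · have h2 : sInf D ≤ (F x₀ - F x) / (x₀ - x) := csInf_le hbd (by rw [hD]; exact ⟨x, ⟨hx, h1⟩, rfl⟩)
    have h3 : 0 < x₀ - x := by linarith
    rw [le_div_iff₀ h3] at h2
    linarith
  · rw [h1, sub_self, mul_zero, add_zero]
  · have h2 : (F x - F x₀) / (x - x₀) ≤ sInf D := by
      apply le_csInf hne
      rw [hD]
      rintro _ ⟨y, hy, rfl⟩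
      have hy0 : y ∈ Ici (0 : ℝ) := hy.1
      exact hc.slope_anti_adjacent hy0 (show x ∈ Ici (0 : ℝ) from hx) hy.2 h1
    have h3 : 0 < x - x₀ := by linarith
    rw [div_le_iff₀ h3] at h2
    linarith

/-- A concave function of a barrier times a function of time. -/
lemma maj_comp {Ψ : ℝ → ℝ → ℝ} {F E : ℝ → ℝ} {κ ν t σ w B₀ : ℝ}
    (hc : ConcaveOn ℝ (Ici 0) F) (hm : MonotoneOn F (Ici 0)) (hκ : 0 < κ)
    (hE : HasDerivAt E (B₀ * E t) t) (hE0 : ∀ τ, 0 < E τ)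
    (hpos : 0 < Ψ t σ) (hnn : ∀ᶠ r in 𝓝 σ, 0 ≤ Ψ t r)
    (hnt : ∀ᶠ τ in 𝓝[<] t, 0 ≤ Ψ τ σ)
    (h : ∃ χ χ₁ c₂ d ζ, Maj Ψ t σ χ χ₁ c₂ d ζ ∧
      4 * ν * σ * c₂ - 2 * w * χ₁ σ ≤ d + B₀ * Ψ t σ) :
    ∃ χ χ₁ c₂ d ζ, Maj (fun τ r => F (κ * (E τ * Ψ τ r))) t σ χ χ₁ c₂ d ζ ∧
      4 * ν * σ * c₂ - 2 * w * χ₁ σ ≤ d := by
  obtain ⟨χ, χ₁, c₂, d, ζ, hM, hk⟩ := h
  have hEt := hE0 t
  obtain ⟨x₀, hx₀⟩ : ∃ x₀ : ℝ, x₀ = κ * (E t * Ψ t σ) := ⟨_, rfl⟩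
  have hx₀0 : 0 < x₀ := by rw [hx₀]; positivity
  obtain ⟨q, hq, hsup⟩ := supergrad hc hm hx₀0
  refine ⟨fun r => F x₀ + q * (κ * (E t * χ r) - x₀), fun r => q * (κ * (E t * χ₁ r)),
    q * (κ * (E t * c₂)), q * (κ * (B₀ * E t * ζ t + E t * d)),
    fun τ => F x₀ + q * (κ * (E τ * ζ τ) - x₀), ⟨?_, ?_, ?_, ?_, ?_, ?_, ?_, ?_⟩, ?_⟩
  · exact contDiffAt_const.add (contDiffAt_const.mul ((contDiffAt_const.mul
      (contDiffAt_const.mul hM.smooth)).sub contDiffAt_const))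
  · filter_upwards [hM.hd1] with r hr
    exact ((((hr.const_mul (E t)).const_mul κ).sub_const x₀).const_mul q).const_add (F x₀)
  · exact (((hM.hd2.const_mul (E t)).const_mul κ)).const_mul q
  · filter_upwards [hM.le, hnn] with r hr hr0
    have h1 : κ * (E t * Ψ t r) ≤ κ * (E t * χ r) := by gcongr
    have h2 := hsup (κ * (E t * Ψ t r)) (by positivity)
    have h3 : q * (κ * (E t * Ψ t r) - x₀) ≤ q * (κ * (E t * χ r) - x₀) := by gcongr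
    show F (κ * (E t * Ψ t r)) ≤ F x₀ + q * (κ * (E t * χ r) - x₀)
    linarith
  · show F x₀ + q * (κ * (E t * χ σ) - x₀) = F (κ * (E t * Ψ t σ))
    rw [hM.eq, ← hx₀, sub_self, mul_zero, add_zero]
  · filter_upwards [hM.tle, hnt] with τ hτ hτ0
    have hEτ := hE0 τ
    have h1 : κ * (E τ * Ψ τ σ) ≤ κ * (E τ * ζ τ) := by gcongr
    have h2 := hsup (κ * (E τ * Ψ τ σ)) (by positivity)
    have h3 : q * (κ * (E τ * Ψ τ σ) - x₀) ≤ q * (κ * (E τ * ζ τ) - x₀) := by gcongr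
    show F (κ * (E τ * Ψ τ σ)) ≤ F x₀ + q * (κ * (E τ * ζ τ) - x₀)
    linarith
  · show F x₀ + q * (κ * (E t * ζ t) - x₀) = F (κ * (E t * Ψ t σ))
    rw [hM.teq, ← hx₀, sub_self, mul_zero, add_zero]
  · exact ((((hE.mul hM.td).const_mul κ).sub_const x₀).const_mul q).const_add (F x₀)
  · show 4 * ν * σ * (q * (κ * (E t * c₂))) - 2 * w * (q * (κ * (E t * χ₁ σ)))
      ≤ q * (κ * (B₀ * E t * ζ t + E t * d))
    rw [hM.teq]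
    have h1 : 0 ≤ q * (κ * E t) := by positivity
    have h2 := mul_le_mul_of_nonneg_left hk h1
    nlinarith

/-- Comparison near the axis, without the small constant. -/
theorem cmpL0 {ν T : ℝ} {u : ℝ → V → V} {p : ℝ → V → ℝ} (hν : 0 < ν) (h : BSol ν T u p)
    {A S : ℝ} (hA : 0 ≤ A) {Φ : ℝ → ℝ → ℝ} (hΦ0 : ∀ t ∈ Ico 0 T, ∀ σ ∈ Icc 0 S, 0 ≤ Φ t σ)
    (hΦc : ContinuousOn (fun z : ℝ × ℝ => Φ z.1 z.2) (Ico 0 T ×ˢ Icc 0 S))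
    (hin : ∀ x, sg x ≤ S → |circ (u 0) x| ≤ A * Φ 0 (sg x))
    (hlat : ∀ t ∈ Ico 0 T, ∀ x, sg x = S → |circ (u t) x| ≤ A * Φ t (sg x))
    (hmaj : ∀ t ∈ Ioo 0 T, ∀ x, 0 < sg x → sg x < S → A * Φ t (sg x) < |circ (u t) x| →
      ∃ χ χ₁ c₂ d ζ, Maj Φ t (sg x) χ χ₁ c₂ d ζ ∧
        4 * ν * sg x * c₂ - 2 * (x 0 * u t x 0 + x 1 * u t x 1) * χ₁ (sg x) ≤ d) :
    ∀ t ∈ Ico 0 T, ∀ x, sg x ≤ S → |circ (u t) x| ≤ A * Φ t (sg x) := by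
  intro t ht x hx
  apply le_of_forall_pos_le_add
  intro δ hδ
  rw [add_comm]
  exact cmpL hν h hA hδ hΦ0 hΦc (fun y hy => (hin y hy).trans (by linarith))
    (fun τ hτ y hy => (hlat τ hτ y hy).trans (by linarith))
    (fun τ hτ y hy1 hy2 hy3 => hmaj τ hτ y hy1 hy2 (by linarith)) t ht x hx

end Pool.Agent.NH42.AX
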