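import Pool.Agent.NH42.AX.One

/-!
Axisymmetric flows: the barrier for the logarithmically critical one-sided bound (helper42).
-/

set_option autoImplicit false

open MeasureTheory Set Metric Filter Topology
open scoped ContDiff

namespace Pool.Agent.NH42.AX

open H459R3.NS W221.NS Pool.Agent.TH305.DR Pool.Agent.TH305.AX

/-- `x e⁻ˣ / (1 - e⁻ˣ)` for `x = k y`. -/
noncomputable def Pk (k y : ℝ) : ℝ := k * y * Real.exp (-(k * y)) / (1 - Real.exp (-(k * y)))

/-- `m(y)`. -/
noncomputable def mm (k m D y : ℝ) : ℝ := m * Pk k y + D / (1 + y)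

/-- The derivative of `mm`. -/
noncomputable def mm' (k m D y : ℝ) : ℝ :=
  m * (k * Real.exp (-(k * y)) * (1 - k * y - Real.exp (-(k * y)))
    / (1 - Real.exp (-(k * y))) ^ 2) - D / (1 + y) ^ 2

/-- `H(y)`, a primitive of `m(y) / y`. -/
noncomputable def Hh (k m D y : ℝ) : ℝ :=
  m * Real.log (1 - Real.exp (-(k * y))) + D * (Real.log y - Real.log (1 + y))

lemma one_sub_exp_pos {x : ℝ} (hx : 0 < x) : 0 < 1 - Real.exp (-x) := by
  have : Real.exp (-x) < 1 := by rw [Real.exp_lt_one_iff]; linarith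
  linarith

lemma pade {x : ℝ} (hx : 0 ≤ x) : 2 - x ≤ (2 + x) * Real.exp (-x) := by
  have hd : ∀ y : ℝ, HasDerivAt (fun y : ℝ => (2 + y) * Real.exp (-y) - (2 - y))
      (1 - (1 + y) * Real.exp (-y)) y := by
    intro y
    have h1 : HasDerivAt (fun y : ℝ => Real.exp (-y)) (-Real.exp (-y)) y := by
      have := (hasDerivAt_neg y).exp
      exact this.congr_deriv (by ring)
    have h2 : HasDerivAt (fun y : ℝ => 2 + y) 1 y := (hasDerivAt_id y).const_add 2
    have h3 : HasDerivAt (fun y : ℝ => 2 - y) (-1) y := (hasDerivAt_id y).const_sub 2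
    exact ((h2.mul h1).sub h3).congr_deriv (by ring)
  have hm : MonotoneOn (fun y : ℝ => (2 + y) * Real.exp (-y) - (2 - y)) (Ici 0) := by
    apply monotoneOn_of_deriv_nonneg (convex_Ici 0)
    · exact fun y _ => (hd y).continuousAt.continuousWithinAt
    · exact fun y _ => (hd y).differentiableAt.differentiableWithinAt
    · intro y hy
      rw [interior_Ici] at hy
      rw [(hd y).deriv]
      have h1 := Real.add_one_le_exp y
      have h2 : Real.exp y * Real.exp (-y) = 1 := by rw [← Real.exp_add]; simp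
      have h3 : (y + 1) * Real.exp (-y) ≤ Real.exp y * Real.exp (-y) := by gcongr
      linarith
  have h1 := hm (mem_Ici.2 le_rfl) (mem_Ici.2 hx) hx
  simp only [add_zero, neg_zero, Real.exp_zero, mul_one, sub_zero, sub_self] at h1
  linarith

/-- The inequality for `m`. -/
lemma star {ν C k m D y : ℝ} (hν : 0 < ν) (hC : 0 < C) (hk : k = 4 * C / ν) (hD : D = 4 * C)
    (hm : m = (1 + D) * Real.exp (k * (4 * C + 1))) (hy : 0 < y) :
    ν * mm' k m D y + C * (1 + mm k m D y) ≤ y * mm k m D y / 2 := by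
  have hk0 : 0 < k := by rw [hk]; positivity
  have hD0 : 0 < D := by rw [hD]; positivity
  have hm0 : 0 < m := by rw [hm]; positivity
  obtain ⟨x, hx⟩ : ∃ x, x = k * y := ⟨_, rfl⟩
  have hx0 : 0 < x := by rw [hx]; positivity
  obtain ⟨E, hE⟩ : ∃ E, E = Real.exp (-x) := ⟨_, rfl⟩
  have hE0 : 0 < E := by rw [hE]; exact Real.exp_pos _
  obtain ⟨Q, hQ⟩ : ∃ Q, Q = 1 - E := ⟨_, rfl⟩
  have hQ0 : 0 < Q := by rw [hQ, hE]; exact one_sub_exp_pos hx0
  have hQx : Q ≤ x := by
    have := Real.add_one_le_exp (-x)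
    rw [hQ, hE]
    linarith
  obtain ⟨P, hP⟩ : ∃ P, P = x * E / Q := ⟨_, rfl⟩
  have hP0 : 0 < P := by rw [hP]; positivity
  have hEP : E ≤ P := by
    rw [hP, le_div_iff₀ hQ0]
    nlinarith
  have hpade : 2 - x ≤ (2 + x) * E := by rw [hE]; exact pade hx0.le
  have hνk : ν * k = 4 * C := by rw [hk]; field_simp
  have hder : ν * (k * E * (1 - x - E) / Q ^ 2) ≤ -(2 * C * P) := by
    have e1 : ν * (k * E * (1 - x - E) / Q ^ 2) = 4 * C * E * (1 - x - E) / Q ^ 2 := by
      rw [← hνk]; ring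
    have e2 : -(2 * C * P) = -(2 * C * x * E * Q) / Q ^ 2 := by
      rw [hP]; field_simp
    rw [e1, e2]
    apply div_le_div_of_nonneg_right _ (by positivity)
    have h1 : 2 * (1 - x - E) ≤ -(x * Q) := by
      rw [hQ]
      nlinarith
    have h2 : 0 < 2 * C * E := by positivity
    nlinarith
  have hkey : C + C * (D / (1 + y)) ≤ C * (m * P) + y * (D / (1 + y)) / 2 := by
    have hy1 : 0 < 1 + y := by linarith
    rcases le_or_gt (4 * C + 1) y with h1 | h1
    · have h2 : C ≤ y * (D / (1 + y)) / 2 - C * (D / (1 + y)) := by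
        have e1 : y * (D / (1 + y)) / 2 - C * (D / (1 + y)) = D * (y - 2 * C) / (2 * (1 + y)) := by
          field_simp
        rw [e1, le_div_iff₀ (by positivity), hD]
        nlinarith
      have h3 : 0 ≤ C * (m * P) := by positivity
      linarith
    · have h2 : 1 + D ≤ m * P := by
        have h3 : Real.exp (-(k * (4 * C + 1))) ≤ E := by
          rw [hE, hx]
          apply Real.exp_le_exp.2
          have := mul_le_mul_of_nonneg_left h1.le hk0.le
          linarith
        calc 1 + D = m * Real.exp (-(k * (4 * C + 1))) := by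
              rw [hm, mul_assoc, ← Real.exp_add]
              simp
          _ ≤ m * P := by
              apply mul_le_mul_of_nonneg_left (h3.trans hEP) hm0.le
      have h4 : D / (1 + y) ≤ D := by
        rw [div_le_iff₀ hy1]
        nlinarith
      have h5 : C * (D / (1 + y)) ≤ C * D := mul_le_mul_of_nonneg_left h4 hC.le
      have h6 : C * (1 + D) ≤ C * (m * P) := mul_le_mul_of_nonneg_left h2 hC.le
      have h7 : 0 ≤ y * (D / (1 + y)) / 2 := by positivity
      linarith
  have emm : mm k m D y = m * P + D / (1 + y) := by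
    unfold mm Pk
    rw [← hx, ← hE, ← hQ, ← hP]
  have emm' : mm' k m D y = m * (k * E * (1 - x - E) / Q ^ 2) - D / (1 + y) ^ 2 := by
    unfold mm'
    rw [← hx, ← hE, ← hQ]
  rw [emm, emm']
  have h1 := mul_le_mul_of_nonneg_left hder hm0.le
  have h2 : 0 ≤ ν * (D / (1 + y) ^ 2) := by positivity
  have h3 : 0 ≤ y * (m * P) := by positivity
  nlinarith

lemma mm_bd {k m D y : ℝ} (hk : 0 < k) (hm : 0 ≤ m) (hD : 0 ≤ D) (hy : 0 < y) :
    0 ≤ mm k m D y ∧ mm k m D y ≤ m + D := by
  have hx : 0 < k * y := by positivity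
  have hQ := one_sub_exp_pos hx
  have h1 : 0 ≤ Pk k y := by unfold Pk; positivity
  have h2 : Pk k y ≤ 1 := by
    unfold Pk
    rw [div_le_one hQ]
    have h3 := Real.add_one_le_exp (k * y)
    have h4 : Real.exp (k * y) * Real.exp (-(k * y)) = 1 := by rw [← Real.exp_add]; simp
    have h5 : (k * y + 1) * Real.exp (-(k * y)) ≤ Real.exp (k * y) * Real.exp (-(k * y)) := by
      gcongr
    linarith
  have h3 : D / (1 + y) ≤ D := by
    rw [div_le_iff₀ (by linarith)]
    nlinarith
  unfold mm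
  constructor
  · positivity
  · have := mul_le_mul_of_nonneg_left h2 hm
    linarith

lemma Hh_hd {k m D y : ℝ} (hk : 0 < k) (hy : 0 < y) :
    HasDerivAt (Hh k m D) (mm k m D y / y) y := by
  have hx : 0 < k * y := by positivity
  have hQ := one_sub_exp_pos hx
  have h1 : HasDerivAt (fun y : ℝ => -(k * y)) (-k) y := by
    have := ((hasDerivAt_id y).const_mul k).neg
    exact this.congr_deriv (by ring)
  have h2 := ((h1.exp).const_sub 1).log hQ.ne'
  have h3 : HasDerivAt (fun y : ℝ => 1 + y) 1 y := (hasDerivAt_id y).const_add 1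
  have h4 := h3.log (show (1 : ℝ) + y ≠ 0 by positivity)
  have h5 := (Real.hasDerivAt_log hy.ne').sub h4
  have h6 := (h2.const_mul m).add (h5.const_mul D)
  refine h6.congr_deriv ?_
  unfold mm Pk
  have hQ' := hQ.ne'
  have h7 : (1 : ℝ) + y ≠ 0 := by positivity
  field_simp
  ring

lemma mm_hd {k m D y : ℝ} (hk : 0 < k) (hy : 0 < y) :
    HasDerivAt (mm k m D) (mm' k m D y) y := by
  have hx : 0 < k * y := by positivity
  have hQ := one_sub_exp_pos hx
  have h0 : HasDerivAt (fun y : ℝ => k * y) k y := by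
    have := (hasDerivAt_id y).const_mul k
    exact this.congr_deriv (by ring)
  have h1 : HasDerivAt (fun y : ℝ => -(k * y)) (-k) y := h0.neg
  have h2 := (h1.exp).const_sub 1
  have h3 : HasDerivAt (fun y : ℝ => 1 + y) 1 y := (hasDerivAt_id y).const_add 1
  have h0' : HasDerivAt (fun y : ℝ => k * y * Real.exp (-(k * y)))
      (k * Real.exp (-(k * y)) + k * y * (Real.exp (-(k * y)) * -k)) y := h0.mul h1.exp
  have h4 : HasDerivAt (fun y : ℝ => m * (k * y * Real.exp (-(k * y)) / (1 - Real.exp (-(k * y)))))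
      (m * (((k * Real.exp (-(k * y)) + k * y * (Real.exp (-(k * y)) * -k))
        * (1 - Real.exp (-(k * y))) - k * y * Real.exp (-(k * y)) * -(Real.exp (-(k * y)) * -k))
        / (1 - Real.exp (-(k * y))) ^ 2)) y := (h0'.div h2 hQ.ne').const_mul m
  have h5 : HasDerivAt (fun y : ℝ => D / (1 + y)) ((0 * (1 + y) - D * 1) / (1 + y) ^ 2) y :=
    (hasDerivAt_const y D).div h3 (show (1 : ℝ) + y ≠ 0 by positivity)
  have h6 := h4.add h5
  refine h6.congr_deriv ?_
  unfold mm'
  have e1 : (k * Real.exp (-(k * y)) + k * y * (Real.exp (-(k * y)) * -k))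
        * (1 - Real.exp (-(k * y))) - k * y * Real.exp (-(k * y)) * -(Real.exp (-(k * y)) * -k)
      = k * Real.exp (-(k * y)) * (1 - k * y - Real.exp (-(k * y))) := by ring
  have e2 : (0 * (1 + y) - D * 1) / (1 + y) ^ 2 = -(D / (1 + y) ^ 2) := by ring
  rw [e1, e2]
  ring

section tht
variable {k m D s : ℝ}

/-- `θ` as a function of `σ`. -/
noncomputable def tht (k m D s σ : ℝ) : ℝ :=
  -1 + Real.log σ / 2 + Hh k m D √(σ / s)

lemma sqrt_hd {r : ℝ} (hs : 0 < s) (hr : 0 < r) :
    HasDerivAt (fun r => √(r / s)) (√(r / s) / (2 * r)) r := by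
  have h1 : HasDerivAt (fun r : ℝ => r / s) (1 / s) r := (hasDerivAt_id r).div_const s
  have hz : 0 < r / s := by positivity
  refine (h1.sqrt hz.ne').congr_deriv ?_
  have h2 : √(r / s) * √(r / s) = r / s := Real.mul_self_sqrt hz.le
  have h3 : 0 < √(r / s) := Real.sqrt_pos.2 hz
  rw [div_div, div_eq_div_iff (by positivity) (by positivity)]
  calc 1 * (2 * r) = 2 * (r / s) * s := by field_simp
    _ = 2 * (√(r / s) * √(r / s)) * s := by rw [h2]
    _ = _ := by ring

lemma tht_hd {r : ℝ} (hk : 0 < k) (hs : 0 < s) (hr : 0 < r) :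
    HasDerivAt (tht k m D s) ((1 + mm k m D √(r / s)) / (2 * r)) r := by
  have hy : 0 < √(r / s) := Real.sqrt_pos.2 (by positivity)
  have h1 : HasDerivAt (fun r => Hh k m D √(r / s))
      (mm k m D √(r / s) / √(r / s) * (√(r / s) / (2 * r))) r :=
    HasDerivAt.comp (h := fun r => √(r / s)) r (Hh_hd (m := m) (D := D) hk hy) (sqrt_hd hs hr)
  have h2 := (((Real.hasDerivAt_log hr.ne').div_const 2).const_add (-1)).add h1
  refine h2.congr_deriv ?_
  field_simp

lemma tht_hd2 {r : ℝ} (hk : 0 < k) (hs : 0 < s) (hr : 0 < r) :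
    HasDerivAt (fun r => (1 + mm k m D √(r / s)) / (2 * r))
      (mm' k m D √(r / s) * √(r / s) / (4 * r ^ 2) - (1 + mm k m D √(r / s)) / (2 * r ^ 2)) r := by
  have hy : 0 < √(r / s) := Real.sqrt_pos.2 (by positivity)
  have h1 : HasDerivAt (fun r => 1 + mm k m D √(r / s))
      (mm' k m D √(r / s) * (√(r / s) / (2 * r))) r :=
    (HasDerivAt.comp (h := fun r => √(r / s)) r (mm_hd (m := m) (D := D) hk hy)
      (sqrt_hd hs hr)).const_add 1
  have h2 : HasDerivAt (fun r : ℝ => 2 * r) 2 r := by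
    simpa using (hasDerivAt_id r).const_mul 2
  refine (h1.div h2 (by positivity)).congr_deriv ?_
  field_simp
  ring

lemma tht_td {T t σ : ℝ} (hk : 0 < k) (ht : t < T) (hσ : 0 < σ) :
    HasDerivAt (fun τ => tht k m D (T - τ) σ) (mm k m D √(σ / (T - t)) / (2 * (T - t))) t := by
  have hs : 0 < T - t := by linarith
  have hz : 0 < σ / (T - t) := by positivity
  have hy : 0 < √(σ / (T - t)) := Real.sqrt_pos.2 hz
  have h1 : HasDerivAt (fun τ : ℝ => T - τ) (-1) t := by
    simpa using (hasDerivAt_id t).const_sub T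
  have h3 : HasDerivAt (fun τ : ℝ => σ / (T - τ)) (σ / (T - t) ^ 2) t := by
    have h4 := (hasDerivAt_const t σ).div h1 hs.ne'
    exact h4.congr_deriv (by ring)
  have h5 : HasDerivAt (fun τ : ℝ => √(σ / (T - τ))) (√(σ / (T - t)) / (2 * (T - t))) t := by
    refine (h3.sqrt hz.ne').congr_deriv ?_
    have h2 : √(σ / (T - t)) * √(σ / (T - t)) = σ / (T - t) := Real.mul_self_sqrt hz.le
    rw [div_eq_div_iff (by positivity) (by positivity)]
    calc σ / (T - t) ^ 2 * (2 * (T - t)) = 2 * (σ / (T - t)) := by field_simp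
      _ = 2 * (√(σ / (T - t)) * √(σ / (T - t))) := by rw [h2]
      _ = _ := by ring
  have h6 : HasDerivAt (fun τ => Hh k m D √(σ / (T - τ)))
      (mm k m D √(σ / (T - t)) / √(σ / (T - t)) * (√(σ / (T - t)) / (2 * (T - t)))) t :=
    HasDerivAt.comp (h := fun τ => √(σ / (T - τ))) t (Hh_hd (m := m) (D := D) hk hy) h5
  refine (h6.const_add (-1 + Real.log σ / 2)).congr_deriv ?_
  field_simp

end tht

end Pool.Agent.NH42.AX
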