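import Pool.Agent.NH42.AX.Crit

/-!
Axisymmetric flows: the barrier for the logarithmically critical one-sided bound, properties
(helper42).
-/

set_option autoImplicit false

open MeasureTheory Set Metric Filter Topology
open scoped ContDiff

namespace Pool.Agent.NH42.AX

open H459R3.NS W221.NS Pool.Agent.TH305.DR Pool.Agent.TH305.AX

/-- The argument of the logarithm. -/
noncomputable def bt (k m D T t σ : ℝ) : ℝ :=
  Real.exp (-1) * (√σ * ((1 - Real.exp (-(k * √(σ / (T - t))))) ^ m *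
    (√(σ / (T - t)) / (1 + √(σ / (T - t)))) ^ D))

/-- The barrier. -/
noncomputable def Lb (a k m D T t σ : ℝ) : ℝ := (-Real.log (bt k m D T t σ)) ^ (-a)

section
variable {a k m D T t σ : ℝ}

lemma log_bt (hk : 0 < k) (ht : t < T) (hσ : 0 < σ) :
    Real.log (bt k m D T t σ) = tht k m D (T - t) σ := by
  have hs : 0 < T - t := by linarith
  have hy : 0 < √(σ / (T - t)) := Real.sqrt_pos.2 (by positivity)
  have hQ := one_sub_exp_pos (show 0 < k * √(σ / (T - t)) by positivity)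
  have hq : 0 < √(σ / (T - t)) / (1 + √(σ / (T - t))) := by positivity
  have hσ' : 0 < √σ := Real.sqrt_pos.2 hσ
  have h1 : 0 < (1 - Real.exp (-(k * √(σ / (T - t))))) ^ m := Real.rpow_pos_of_pos hQ _
  have h2 : 0 < (√(σ / (T - t)) / (1 + √(σ / (T - t)))) ^ D := Real.rpow_pos_of_pos hq _
  unfold bt tht Hh
  rw [Real.log_mul (Real.exp_pos _).ne' (mul_pos hσ' (mul_pos h1 h2)).ne', Real.log_exp,
    Real.log_mul hσ'.ne' (mul_pos h1 h2).ne', Real.log_mul h1.ne' h2.ne', Real.log_rpow hQ,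
    Real.log_rpow hq, Real.log_div hy.ne' (by positivity), Real.log_sqrt hσ.le]
  ring

lemma Hh_nonpos {y : ℝ} (hk : 0 < k) (hm : 0 ≤ m) (hD : 0 ≤ D) (hy : 0 < y) :
    Hh k m D y ≤ 0 := by
  have hx : 0 < k * y := by positivity
  have hQ := one_sub_exp_pos hx
  have h1 : Real.log (1 - Real.exp (-(k * y))) ≤ 0 := by
    apply Real.log_nonpos hQ.le
    have := Real.exp_pos (-(k * y))
    linarith
  have h2 : Real.log y ≤ Real.log (1 + y) := Real.log_le_log hy (by linarith)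
  unfold Hh
  have h3 : m * Real.log (1 - Real.exp (-(k * y))) ≤ 0 := mul_nonpos_of_nonneg_of_nonpos hm h1
  have h4 : D * (Real.log y - Real.log (1 + y)) ≤ 0 :=
    mul_nonpos_of_nonneg_of_nonpos hD (by linarith)
  linarith

lemma psi_low (hk : 0 < k) (hm : 0 ≤ m) (hD : 0 ≤ D) (ht : t < T) (hσ : 0 < σ) :
    1 - Real.log σ / 2 ≤ -tht k m D (T - t) σ := by
  have hs : 0 < T - t := by linarith
  have hy : 0 < √(σ / (T - t)) := Real.sqrt_pos.2 (by positivity)
  have := Hh_nonpos hk hm hD hy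
  unfold tht
  linarith

lemma lb_num {a C b B κ m D w y μ μ' σ s L ψ ν : ℝ} (hν : 0 < ν) (ha : 0 < a) (hB : 0 ≤ B)
    (hκ : (a + 1) * (1 + m + D) + 1 ≤ κ) (hm : 0 ≤ m) (hD : 0 ≤ D) (hy : 0 < y) (hσ : 0 < σ)
    (hs : 0 < s) (hL : 0 < L) (hψL : L ≤ ψ) (hψ1 : 1 ≤ ψ) (hy2 : y ^ 2 = σ / s) (hμ0 : 0 ≤ μ)
    (hμ1 : μ ≤ m + D) (hstar : ν * μ' + C * (1 + μ) ≤ y * μ / 2)
    (hw : -(2 * ν) + κ * ν / L - C * y - b * √σ - B * σ ≤ w) :
    4 * ν * σ * ((a + 1) * ((1 + μ) / (2 * σ)) ^ 2 / ψ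
      + (μ' * y / (4 * σ ^ 2) - (1 + μ) / (2 * σ ^ 2))) - 2 * w * ((1 + μ) / (2 * σ))
      ≤ μ / (2 * s) + (1 + m + D) * (b ^ 2 / (4 * ν) + B) * ψ := by
  have hψ : 0 < ψ := by linarith
  have e1 : 4 * ν * σ * ((a + 1) * ((1 + μ) / (2 * σ)) ^ 2 / ψ
      + (μ' * y / (4 * σ ^ 2) - (1 + μ) / (2 * σ ^ 2))) - 2 * w * ((1 + μ) / (2 * σ))
      = (1 + μ) / σ * (ν * (a + 1) * (1 + μ) / ψ - 2 * ν - w) + ν * μ' * y / σ := by
    field_simp
    ring
  have h1 : (1 + μ) / σ * (ν * (a + 1) * (1 + μ) / ψ - 2 * ν - w)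
      ≤ (1 + μ) / σ * (ν * (a + 1) * (1 + μ) / ψ - κ * ν / L + C * y + b * √σ + B * σ) := by
    apply mul_le_mul_of_nonneg_left _ (by positivity)
    linarith
  have h2 : ν * μ' * y / σ + (1 + μ) / σ * (C * y) ≤ μ / (2 * s) := by
    have h3 := mul_le_mul_of_nonneg_left hstar (show 0 ≤ y / σ by positivity)
    have e2 : y / σ * (y * μ / 2) = μ / (2 * s) := by
      have : y * y = σ / s := by rw [← hy2]; ring
      calc y / σ * (y * μ / 2) = (y * y) * μ / (2 * σ) := by ring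
        _ = μ / (2 * s) := by rw [this]; field_simp
    have e3 : ν * μ' * y / σ + (1 + μ) / σ * (C * y) = y / σ * (ν * μ' + C * (1 + μ)) := by ring
    rw [e3, ← e2]
    exact h3
  have h4 : ν * (a + 1) * (1 + μ) / ψ - κ * ν / L + b * √σ + B * σ
      ≤ σ * ((b ^ 2 / (4 * ν) + B) * ψ) := by
    have h5 : ν * (a + 1) * (1 + μ) / ψ ≤ ν * (a + 1) * (1 + m + D) / L := by
      apply div_le_div₀ (by positivity) _ hL hψL
      apply mul_le_mul_of_nonneg_left (by linarith) (by positivity)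
    have h6 : ν * (a + 1) * (1 + m + D) / L + ν / L ≤ κ * ν / L := by
      rw [← add_div]
      apply div_le_div_of_nonneg_right _ hL.le
      nlinarith
    have h7 : b * √σ ≤ ν / L + 1 / (4 * (ν / L)) * (b ^ 2 * σ) :=
      young (by positivity) (Real.sq_sqrt hσ.le).symm
    have h8 : 1 / (4 * (ν / L)) * (b ^ 2 * σ) = σ * (b ^ 2 / (4 * ν) * L) := by field_simp
    have h9 : σ * (b ^ 2 / (4 * ν) * L) ≤ σ * (b ^ 2 / (4 * ν) * ψ) := by gcongr
    have h10 : B * σ ≤ σ * (B * ψ) := by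
      have := mul_le_mul_of_nonneg_left hψ1 (show 0 ≤ B * σ by positivity)
      linarith
    have e4 : σ * ((b ^ 2 / (4 * ν) + B) * ψ) = σ * (b ^ 2 / (4 * ν) * ψ) + σ * (B * ψ) := by ring
    rw [e4]
    linarith
  have h11 : (1 + μ) / σ * (σ * ((b ^ 2 / (4 * ν) + B) * ψ))
      ≤ (1 + m + D) * (b ^ 2 / (4 * ν) + B) * ψ := by
    have e5 : (1 + μ) / σ * (σ * ((b ^ 2 / (4 * ν) + B) * ψ))
        = (1 + μ) * ((b ^ 2 / (4 * ν) + B) * ψ) := by field_simp
    rw [e5, mul_assoc]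
    apply mul_le_mul_of_nonneg_right (by linarith) (by positivity)
  have h12 := mul_le_mul_of_nonneg_left h4 (show 0 ≤ (1 + μ) / σ by positivity)
  rw [e1]
  have e6 : (1 + μ) / σ * (ν * (a + 1) * (1 + μ) / ψ - κ * ν / L + C * y + b * √σ + B * σ)
      = (1 + μ) / σ * (ν * (a + 1) * (1 + μ) / ψ - κ * ν / L + b * √σ + B * σ)
        + (1 + μ) / σ * (C * y) := by ring
  rw [e6] at h1
  linarith

/-- The upper bound of `ψ`. -/
lemma psi_up (hk : 0 < k) (hm : 0 ≤ m) (hD : 0 ≤ D) (hT : 0 < T) {r : ℝ} (hr : 0 < r)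
    (hr1 : r < 1) : ∃ c : ℝ, 0 < c ∧ ∀ t ∈ Ico 0 T, ∀ σ, 0 < σ → √σ ≤ r →
      -tht k m D (T - t) σ ≤ c * (-Real.log √σ) := by
  obtain ⟨l, hl⟩ : ∃ l : ℝ, l = -Real.log r := ⟨_, rfl⟩
  have hl0 : 0 < l := by
    rw [hl]
    have := Real.log_neg hr hr1
    linarith
  have hRT : 0 < √T := Real.sqrt_pos.2 hT
  obtain ⟨c4, hc4⟩ : ∃ c4 : ℝ, c4 = 1 + m * Real.log (1 + √T / k) + D * Real.log (1 + √T) :=
    ⟨_, rfl⟩
  have hg1 : 0 ≤ Real.log (1 + √T / k) := Real.log_nonneg (by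
    have : 0 ≤ √T / k := by positivity
    linarith)
  have hg2 : 0 ≤ Real.log (1 + √T) := Real.log_nonneg (by linarith)
  have hc40 : 0 < c4 := by rw [hc4]; positivity
  refine ⟨c4 / l + (1 + m + D), by positivity, fun t ht σ hσ hσr => ?_⟩
  have hs : 0 < T - t := by linarith [ht.2]
  have hsT : T - t ≤ T := by linarith [ht.1]
  obtain ⟨ρ, hρ⟩ : ∃ ρ, ρ = √σ := ⟨_, rfl⟩
  have hρ0 : 0 < ρ := by rw [hρ]; exact Real.sqrt_pos.2 hσ
  have hρ1 : ρ < 1 := by rw [hρ]; linarith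
  have hlog : Real.log σ / 2 = Real.log ρ := by rw [hρ, Real.log_sqrt hσ.le]
  obtain ⟨L, hL⟩ : ∃ L : ℝ, L = -Real.log ρ := ⟨_, rfl⟩
  have hLl : l ≤ L := by
    rw [hl, hL]
    have := Real.log_le_log hρ0 (by rw [hρ]; exact hσr : ρ ≤ r)
    linarith
  have hL0 : 0 < L := by linarith
  obtain ⟨y, hy⟩ : ∃ y, y = √(σ / (T - t)) := ⟨_, rfl⟩
  have hy0 : 0 < y := by rw [hy]; exact Real.sqrt_pos.2 (by positivity)
  have hyρ : ρ / √T ≤ y := by
    rw [hρ, ← Real.sqrt_div hσ.le, hy]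
    apply Real.sqrt_le_sqrt
    exact div_le_div_of_nonneg_left hσ.le hs hsT
  have hinv : 1 / y ≤ √T / ρ := by
    rw [div_le_div_iff₀ hy0 hρ0]
    rw [div_le_iff₀ hRT] at hyρ
    linarith
  have hgen : ∀ q : ℝ, 0 ≤ q → Real.log (1 + q / ρ) ≤ Real.log (1 + q) + L := by
    intro q hq
    have h1 : 1 + q / ρ ≤ (1 + q) * (1 / ρ) := by
      rw [mul_one_div, add_div]
      have : 1 ≤ 1 / ρ := by rw [le_div_iff₀ hρ0]; linarith
      linarith
    have h2 : Real.log ((1 + q) * (1 / ρ)) = Real.log (1 + q) + L := by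
      rw [Real.log_mul (by positivity) (by positivity), one_div, Real.log_inv, hL]
    rw [← h2]
    exact Real.log_le_log (by positivity) h1
  have hA : -Real.log (1 - Real.exp (-(k * y))) ≤ Real.log (1 + √T / k) + L := by
    have hx : 0 < k * y := by positivity
    have hQ := one_sub_exp_pos hx
    have h1 : k * y / (1 + k * y) ≤ 1 - Real.exp (-(k * y)) := by
      have h2 := Real.add_one_le_exp (k * y)
      have h3 : Real.exp (-(k * y)) ≤ 1 / (1 + k * y) := by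
        rw [Real.exp_neg, ← one_div]
        apply one_div_le_one_div_of_le (by linarith) (by linarith)
      have h4 : k * y / (1 + k * y) = 1 - 1 / (1 + k * y) := by field_simp; ring
      linarith
    have h2 := Real.log_le_log (by positivity) h1
    have h3 : Real.log (k * y / (1 + k * y)) = -Real.log (1 + 1 / (k * y)) := by
      rw [← Real.log_inv]
      congr 1
      field_simp
      ring
    have h5 : 1 / (k * y) ≤ √T / k / ρ := by
      calc 1 / (k * y) = 1 / y / k := by field_simp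
        _ ≤ √T / ρ / k := by gcongr
        _ = √T / k / ρ := by field_simp
    have h6 : Real.log (1 + 1 / (k * y)) ≤ Real.log (1 + √T / k / ρ) :=
      Real.log_le_log (by positivity) (by linarith)
    have h7 := hgen (√T / k) (by positivity)
    linarith
  have hBb : Real.log (1 + y) - Real.log y ≤ Real.log (1 + √T) + L := by
    have h3 : Real.log (1 + y) - Real.log y = Real.log (1 + 1 / y) := by
      rw [← Real.log_div (by positivity) hy0.ne']
      congr 1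
      field_simp
      ring
    rw [h3]
    have h6 : Real.log (1 + 1 / y) ≤ Real.log (1 + √T / ρ) :=
      Real.log_le_log (by positivity) (by linarith)
    exact h6.trans (hgen (√T) hRT.le)
  have h1 : -tht k m D (T - t) σ ≤ c4 + (1 + m + D) * L := by
    unfold tht Hh
    rw [← hy, hlog, hc4]
    have h2 := mul_le_mul_of_nonneg_left hA hm
    have h3 := mul_le_mul_of_nonneg_left hBb hD
    have h4 : Real.log ρ = -L := by rw [hL]; ring
    rw [h4]
    linarith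
  rw [← hρ, ← hL]
  have h2 : c4 ≤ c4 / l * L := by
    rw [div_mul_eq_mul_div, le_div_iff₀ hl0]
    gcongr
  linarith

lemma Ft_cont (ha : 0 < a) : ContinuousOn (fun x : ℝ => (-Real.log x) ^ (-a)) (Ico 0 1) := by
  intro x hx
  rcases eq_or_lt_of_le hx.1 with h1 | h1
  · rw [← h1]
    have h2 : Tendsto (fun x : ℝ => (-Real.log x) ^ (-a)) (𝓝[>] 0) (𝓝 0) :=
      (tendsto_rpow_neg_atTop ha).comp (tendsto_neg_atBot_atTop.comp Real.tendsto_log_nhdsGT_zero)
    have h3 : ContinuousWithinAt (fun x : ℝ => (-Real.log x) ^ (-a)) (Ioi 0) 0 := by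
      show Tendsto _ _ (𝓝 ((-Real.log 0) ^ (-a)))
      rw [Real.log_zero, neg_zero, Real.zero_rpow (by linarith)]
      exact h2
    exact (continuousWithinAt_Ioi_iff_Ici.1 h3).mono Ico_subset_Ici_self
  · have h2 : Real.log x < 0 := Real.log_neg h1 hx.2
    apply ContinuousAt.continuousWithinAt
    apply ContinuousAt.rpow_const
    · exact (Real.continuousAt_log h1.ne').neg
    · left
      show -Real.log x ≠ 0
      linarith

lemma bt_nonneg (hk : 0 < k) (ht : t < T) (hσ : 0 ≤ σ) : 0 ≤ bt k m D T t σ := by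
  have hs : 0 < T - t := by linarith
  have h1 : 0 ≤ 1 - Real.exp (-(k * √(σ / (T - t)))) := by
    have : Real.exp (-(k * √(σ / (T - t)))) ≤ 1 := by
      rw [Real.exp_le_one_iff]
      have : 0 ≤ k * √(σ / (T - t)) := by positivity
      linarith
    linarith
  unfold bt
  positivity

lemma bt_le (hk : 0 < k) (hm : 0 ≤ m) (hD : 0 ≤ D) (ht : t < T) (hσ : 0 ≤ σ) :
    bt k m D T t σ ≤ √σ := by
  have hs : 0 < T - t := by linarith
  have h1 : 0 ≤ 1 - Real.exp (-(k * √(σ / (T - t)))) := by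
    have : Real.exp (-(k * √(σ / (T - t)))) ≤ 1 := by
      rw [Real.exp_le_one_iff]
      have : 0 ≤ k * √(σ / (T - t)) := by positivity
      linarith
    linarith
  have h2 : (1 - Real.exp (-(k * √(σ / (T - t))))) ^ m ≤ 1 := by
    apply Real.rpow_le_one h1 _ hm
    have := Real.exp_pos (-(k * √(σ / (T - t))))
    linarith
  have h3 : (√(σ / (T - t)) / (1 + √(σ / (T - t)))) ^ D ≤ 1 := by
    apply Real.rpow_le_one (by positivity) _ hD
    have := Real.sqrt_nonneg (σ / (T - t))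
    rw [div_le_one (by linarith)]
    linarith
  have h4 : 0 ≤ (1 - Real.exp (-(k * √(σ / (T - t))))) ^ m := Real.rpow_nonneg h1 _
  have h5 : 0 ≤ (√(σ / (T - t)) / (1 + √(σ / (T - t)))) ^ D := Real.rpow_nonneg (by positivity) _
  have h6 : (1 - Real.exp (-(k * √(σ / (T - t))))) ^ m
      * (√(σ / (T - t)) / (1 + √(σ / (T - t)))) ^ D ≤ 1 := mul_le_one₀ h2 h5 h3
  have h7 : Real.exp (-1) ≤ 1 := Real.exp_le_one_iff.2 (by norm_num)
  have h8 := Real.sqrt_nonneg σ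
  unfold bt
  calc Real.exp (-1) * (√σ * ((1 - Real.exp (-(k * √(σ / (T - t))))) ^ m *
        (√(σ / (T - t)) / (1 + √(σ / (T - t)))) ^ D)) ≤ 1 * (√σ * 1) := by
        apply mul_le_mul h7 _ (by positivity) zero_le_one
        exact mul_le_mul_of_nonneg_left h6 h8
    _ = √σ := by ring

lemma Lb_cont (ha : 0 < a) (hk : 0 < k) (hm : 0 ≤ m) (hD : 0 ≤ D) {S : ℝ} (hS : S < 1) :
    ContinuousOn (fun z : ℝ × ℝ => Lb a k m D T z.1 z.2) (Ico 0 T ×ˢ Icc 0 S) := by
  have hne : ∀ z ∈ Ico 0 T ×ˢ Icc 0 S, T - z.1 ≠ 0 := by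
    intro z hz
    have : 0 < T - z.1 := by linarith [hz.1.2]
    exact this.ne'
  have h2 : ContinuousOn (fun z : ℝ × ℝ => √(z.2 / (T - z.1))) (Ico 0 T ×ˢ Icc 0 S) :=
    ContinuousOn.sqrt (continuous_snd.continuousOn.div (by fun_prop) hne)
  have hb : ContinuousOn (fun z : ℝ × ℝ => bt k m D T z.1 z.2) (Ico 0 T ×ˢ Icc 0 S) := by
    unfold bt
    apply continuousOn_const.mul
    apply ContinuousOn.mul (by fun_prop)
    apply ContinuousOn.mul
    · apply ContinuousOn.rpow_const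
      · exact continuousOn_const.sub ((continuousOn_const.mul h2).neg.rexp)
      · exact fun z _ => Or.inr hm
    · apply ContinuousOn.rpow_const
      · apply h2.div (continuousOn_const.add h2)
        intro z _
        have := Real.sqrt_nonneg (z.2 / (T - z.1))
        show (1 : ℝ) + √(z.2 / (T - z.1)) ≠ 0
        positivity
      · exact fun z _ => Or.inr hD
  have h3 := (Ft_cont ha).comp hb (fun z hz => ⟨bt_nonneg hk hz.1.2 hz.2.1,
    (bt_le hk hm hD hz.1.2 hz.2.1).trans_lt (by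
      have h4 : √z.2 ≤ √S := Real.sqrt_le_sqrt hz.2.2
      have h5 : √S < 1 := by
        rw [Real.sqrt_lt' one_pos]
        simpa using hS
      linarith)⟩)
  exact h3

lemma Lb_nonneg (hk : 0 < k) (hm : 0 ≤ m) (hD : 0 ≤ D) (ht : t < T) (hσ : 0 ≤ σ) (hσ1 : σ ≤ 1) :
    0 ≤ Lb a k m D T t σ := by
  unfold Lb
  apply Real.rpow_nonneg
  have h1 := bt_nonneg (m := m) (D := D) hk ht hσ
  have h2 := bt_le hk hm hD ht hσ
  have h3 : √σ ≤ 1 := Real.sqrt_le_one.2 hσ1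
  have := Real.log_nonpos h1 (h2.trans h3)
  linarith

/-- The barrier is a supersolution. -/
lemma lb_maj {ν C κ w b B : ℝ} (hν : 0 < ν) (hC : 0 < C) (hk : k = 4 * C / ν) (hD : D = 4 * C)
    (hm : m = (1 + D) * Real.exp (k * (4 * C + 1))) (ha : 0 < a)
    (hκ : (a + 1) * (1 + m + D) + 1 ≤ κ) (ht : t < T) (hσ : 0 < σ) (hσ1 : σ < 1) (hB : 0 ≤ B)
    (hw : -(2 * ν) + κ * ν / (-Real.log √σ) - C * √σ / √(T - t) - b * √σ - B * σ ≤ w) :
    ∃ χ χ₁ c₂ d ζ, Maj (Lb a k m D T) t σ χ χ₁ c₂ d ζ ∧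
      4 * ν * σ * c₂ - 2 * w * χ₁ σ
        ≤ d + a * (1 + m + D) * (b ^ 2 / (4 * ν) + B) * Lb a k m D T t σ := by
  have hk0 : 0 < k := by rw [hk]; positivity
  have hD0 : 0 < D := by rw [hD]; positivity
  have hm0 : 0 < m := by rw [hm]; positivity
  obtain ⟨s, hs⟩ : ∃ s, s = T - t := ⟨_, rfl⟩
  have hs0 : 0 < s := by rw [hs]; linarith
  obtain ⟨y, hy⟩ : ∃ y, y = √(σ / s) := ⟨_, rfl⟩
  have hz0 : 0 < σ / s := by positivity
  have hy0 : 0 < y := by rw [hy]; exact Real.sqrt_pos.2 hz0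
  have hy2 : y ^ 2 = σ / s := by rw [hy, Real.sq_sqrt hz0.le]
  obtain ⟨L, hL⟩ : ∃ L, L = -Real.log √σ := ⟨_, rfl⟩
  have hL0 : 0 < L := by
    have h1 : √σ < 1 := by
      rw [Real.sqrt_lt' one_pos]
      simpa using hσ1
    have := Real.log_neg (Real.sqrt_pos.2 hσ) h1
    rw [hL]
    linarith
  obtain ⟨ψ, hψ⟩ : ∃ ψ, ψ = -tht k m D s σ := ⟨_, rfl⟩
  have hψL : 1 + L ≤ ψ := by
    have h1 := psi_low hk0 hm0.le hD0.le ht hσ
    have h2 : Real.log √σ = Real.log σ / 2 := Real.log_sqrt hσ.le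
    rw [hψ, hs, hL, h2]
    linarith
  have hψ0 : 0 < ψ := by linarith
  obtain ⟨μ, hμ⟩ : ∃ μ, μ = mm k m D y := ⟨_, rfl⟩
  obtain ⟨μ', hμ'⟩ : ∃ μ', μ' = mm' k m D y := ⟨_, rfl⟩
  obtain ⟨hμ0, hμ1⟩ := mm_bd hk0 hm0.le hD0.le hy0
  rw [← hμ] at hμ0 hμ1
  have hstar := star hν hC hk hD hm hy0
  rw [← hμ, ← hμ'] at hstar
  obtain ⟨P, hP⟩ : ∃ P, P = ψ ^ (-a - 1) := ⟨_, rfl⟩
  have hP0 : 0 < P := by rw [hP]; exact Real.rpow_pos_of_pos hψ0 _
  have hPψ : ψ ^ (-a) = P * ψ := by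
    rw [hP, ← Real.rpow_add_one hψ0.ne']
    congr 1
    ring
  have hP1 : ψ ^ (-a - 1 - 1) = P / ψ := by rw [Real.rpow_sub_one hψ0.ne', hP]
  have hne : -tht k m D s σ ≠ 0 := by rw [← hψ]; exact hψ0.ne'
  have hpos : ∀ᶠ r in 𝓝 σ, 0 < -tht k m D s r := by
    have h1 : ContinuousAt (fun r => -tht k m D s r) σ := (tht_hd hk0 hs0 hσ).continuousAt.neg
    refine h1.eventually (lt_mem_nhds ?_)
    show 0 < -tht k m D s σ
    rw [← hψ]
    exact hψ0
  have hLb : ∀ r, 0 < r → Lb a k m D T t r = (-tht k m D s r) ^ (-a) := by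
    intro r hr
    unfold Lb
    rw [log_bt hk0 ht hr, hs]
  -- derivatives in r
  have hneg : ∀ r, 0 < r → HasDerivAt (fun r => -tht k m D s r)
      (-((1 + mm k m D √(r / s)) / (2 * r))) r := fun r hr => (tht_hd hk0 hs0 hr).neg
  have hχ : ∀ᶠ r in 𝓝 σ, HasDerivAt (fun r => (-tht k m D s r) ^ (-a))
      (a * ((-tht k m D s r) ^ (-a - 1) * ((1 + mm k m D √(r / s)) / (2 * r)))) r := by
    filter_upwards [hpos, lt_mem_nhds hσ] with r hr hr0
    exact ((hneg r hr0).rpow_const (p := -a) (Or.inl hr.ne')).congr_deriv (by ring)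
  have hχ1 : HasDerivAt (fun r => a * ((-tht k m D s r) ^ (-a - 1)
      * ((1 + mm k m D √(r / s)) / (2 * r))))
      (a * P * ((a + 1) * ((1 + μ) / (2 * σ)) ^ 2 / ψ
        + (μ' * y / (4 * σ ^ 2) - (1 + μ) / (2 * σ ^ 2)))) σ := by
    have h1 : HasDerivAt (fun r => (-tht k m D s r) ^ (-a - 1)) (-((1 + mm k m D √(σ / s)) / (2 * σ))
        * (-a - 1) * (-tht k m D s σ) ^ (-a - 1 - 1)) σ :=
      (hneg σ hσ).rpow_const (p := -a - 1) (Or.inl hne)
    have h2 := (h1.mul (tht_hd2 (m := m) (D := D) hk0 hs0 hσ)).const_mul a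
    refine h2.congr_deriv ?_
    rw [← hy, ← hμ, ← hμ', ← hψ, hP1, ← hP]
    field_simp
    ring
  -- derivative in t
  have hζ : HasDerivAt (fun τ => (-tht k m D (T - τ) σ) ^ (-a)) (a * P * (μ / (2 * s))) t := by
    have h0 : HasDerivAt (fun τ => -tht k m D (T - τ) σ)
        (-(mm k m D √(σ / (T - t)) / (2 * (T - t)))) t := (tht_td hk0 ht hσ).neg
    have h1 := h0.rpow_const (p := -a) (Or.inl (by rw [← hs]; exact hne))
    refine h1.congr_deriv ?_
    rw [← hs, ← hy, ← hμ, ← hψ, ← hP]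
    ring
  have hval : Lb a k m D T t σ = P * ψ := by rw [hLb σ hσ, ← hψ, hPψ]
  refine ⟨fun r => (-tht k m D s r) ^ (-a),
    fun r => a * ((-tht k m D s r) ^ (-a - 1) * ((1 + mm k m D √(r / s)) / (2 * r))), _, _,
    fun τ => (-tht k m D (T - τ) σ) ^ (-a), ⟨?_, hχ, hχ1, ?_, ?_, ?_, ?_, hζ⟩, ?_⟩
  · have h1 : ContDiffAt ℝ 2 (fun r : ℝ => √(r / s)) σ :=
      (contDiffAt_id.div_const s).sqrt hz0.ne'
    have hQ := one_sub_exp_pos (show 0 < k * √(σ / s) by rw [← hy]; positivity)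
    have h2 : ContDiffAt ℝ 2 (fun r : ℝ => Real.log (1 - Real.exp (-(k * √(r / s))))) σ :=
      (contDiffAt_const.sub ((contDiffAt_const.mul h1).neg.exp)).log hQ.ne'
    have h3 : ContDiffAt ℝ 2 (fun r : ℝ => Real.log √(r / s)) σ :=
      h1.log (by rw [← hy]; exact hy0.ne')
    have h4 : ContDiffAt ℝ 2 (fun r : ℝ => Real.log (1 + √(r / s))) σ :=
      (contDiffAt_const.add h1).log (by rw [← hy]; positivity)
    have h5 : ContDiffAt ℝ 2 (fun r : ℝ => Real.log r) σ := contDiffAt_id.log hσ.ne'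
    have h6 : ContDiffAt ℝ 2 (fun r : ℝ => tht k m D s r) σ := by
      unfold tht Hh
      exact ((contDiffAt_const.add (h5.div_const 2))).add ((contDiffAt_const.mul h2).add
        (contDiffAt_const.mul (h3.sub h4)))
    exact h6.neg.rpow_const_of_ne hne
  · filter_upwards [lt_mem_nhds hσ] with r hr
    exact (hLb r hr).le
  · exact (hLb σ hσ).symm
  · filter_upwards [self_mem_nhdsWithin] with τ hτ
    have hτ' : τ < t := hτ
    unfold Lb
    rw [log_bt hk0 (hτ'.trans ht) hσ]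
  · show (-tht k m D (T - t) σ) ^ (-a) = _
    rw [hLb σ hσ, hs]
  · show 4 * ν * σ * (a * P * ((a + 1) * ((1 + μ) / (2 * σ)) ^ 2 / ψ
        + (μ' * y / (4 * σ ^ 2) - (1 + μ) / (2 * σ ^ 2))))
      - 2 * w * (a * ((-tht k m D s σ) ^ (-a - 1) * ((1 + mm k m D √(σ / s)) / (2 * σ)))) ≤ _
    rw [← hψ, ← hP, ← hy, ← hμ, hval]
    have hys : C * √σ / √(T - t) = C * y := by
      rw [mul_div_assoc, ← Real.sqrt_div hσ.le, ← hs, ← hy]
    rw [hys, ← hL] at hw
    have hnum := lb_num hν ha hB hκ hm0.le hD0.le hy0 hσ hs0 hL0 (show L ≤ ψ by linarith)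
      (show 1 ≤ ψ by linarith) hy2
      hμ0 hμ1 hstar hw
    have h1 := mul_le_mul_of_nonneg_left hnum (show 0 ≤ a * P by positivity)
    have e1 : a * P * (μ / (2 * s)) + a * (1 + m + D) * (b ^ 2 / (4 * ν) + B) * (P * ψ)
        = a * P * (μ / (2 * s) + (1 + m + D) * (b ^ 2 / (4 * ν) + B) * ψ) := by ring
    rw [e1]
    refine le_trans (le_of_eq ?_) h1
    ring

end

end Pool.Agent.NH42.AX
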