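import Pool.Agent.NH42.AX.Crit2

/-!
Axisymmetric flows: the logarithmically critical one-sided bound (helper42).
-/

set_option autoImplicit false

open MeasureTheory Set Metric Filter Topology
open scoped ContDiff

namespace Pool.Agent.NH42.AX

open H459R3.NS W221.NS Pool.Agent.TH305.DR Pool.Agent.TH305.AX

lemma mul_log_rpow {a x : ℝ} (ha : 0 < a) (hx : 0 < x) (hx1 : x < 1) :
    x * (-Real.log x) ^ a ≤ a ^ a := by
  have hL : 0 < -Real.log x := by
    have := Real.log_neg hx hx1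
    linarith
  have h1 := Real.log_le_rpow_div (x := 1 / x) (by positivity) (show 0 < 1 / a by positivity)
  rw [one_div x, Real.log_inv] at h1
  have h2 : (-Real.log x) ^ a ≤ (x⁻¹ ^ (1 / a) / (1 / a)) ^ a := Real.rpow_le_rpow hL.le h1 ha.le
  have h3 : (x⁻¹ ^ (1 / a) / (1 / a)) ^ a = x⁻¹ * a ^ a := by
    rw [div_div_eq_mul_div, div_one, Real.mul_rpow (by positivity) ha.le, ← Real.rpow_mul
      (by positivity), one_div, inv_mul_cancel₀ ha.ne', Real.rpow_one]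
  rw [h3] at h2
  calc x * (-Real.log x) ^ a ≤ x * (x⁻¹ * a ^ a) := by gcongr
    _ = a ^ a := by field_simp

/-- The result for logarithmically critical one-sided bounds. -/
theorem typeLog {ν C a : ℝ} (hν : 0 < ν) (hC : 0 < C) (ha : 0 < a) :
    ∃ κ : ℝ, 0 < κ ∧ ∀ (T : ℝ) (u : ℝ → V → V) (p : ℝ → V → ℝ), BSol ν T u p →
    ∀ (b B : ℝ → ℝ) (K M r₀ I : ℝ), 0 < r₀ → r₀ < 1 →
      ContinuousOn b (Ico 0 T) → ContinuousOn B (Ico 0 T) → (∀ t ∈ Ico 0 T, 0 ≤ B t) →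
      (∀ t ∈ Ico 0 T, ∫ s in (0 : ℝ)..t, (b s ^ 2 + B s) ≤ I) →
      ((∀ x, |circ (u 0) x| ≤ M) ∨
        ∀ t ∈ Ico 0 T, ∀ x, √(sg x) = r₀ → |circ (u t) x| ≤ M) →
      (∀ t ∈ Ioo 0 T, ∀ x, 0 < √(sg x) → √(sg x) < r₀ →
        K * (-Real.log √(sg x)) ^ (-a) < |circ (u t) x| →
        -(2 * ν) + κ * ν / (-Real.log √(sg x)) - (C / √(T - t) + b t) * √(sg x)
          - B t * √(sg x) ^ 2 ≤ x 0 * u t x 0 + x 1 * u t x 1) →
      ∃ A : ℝ, ∀ t ∈ Ico 0 T, ∀ x, 0 < √(sg x) → √(sg x) ≤ r₀ →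
        |circ (u t) x| ≤ A * (-Real.log √(sg x)) ^ (-a) := by
  obtain ⟨k, hk⟩ : ∃ k, k = 4 * C / ν := ⟨_, rfl⟩
  obtain ⟨D, hD⟩ : ∃ D, D = 4 * C := ⟨_, rfl⟩
  obtain ⟨m, hm⟩ : ∃ m, m = (1 + D) * Real.exp (k * (4 * C + 1)) := ⟨_, rfl⟩
  have hk0 : 0 < k := by rw [hk]; positivity
  have hD0 : 0 < D := by rw [hD]; positivity
  have hm0 : 0 < m := by rw [hm]; positivity
  refine ⟨(a + 1) * (1 + m + D) + 1, by positivity, ?_⟩
  intro T u p h b B K M r₀ I hr₀ hr₁ hb hB hB0 hI hM hcond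
  rcases le_or_gt T 0 with hT | hT
  · exact ⟨0, fun t ht => absurd (ht.1.trans_lt ht.2) (not_lt.2 hT)⟩
  have hlatM : ∀ t ∈ Ico 0 T, ∀ x, √(sg x) = r₀ → |circ (u t) x| ≤ |M| := by
    intro t ht x hx
    rcases hM with h1 | h1
    · exact (maxP hν h h1 t ht x).trans (le_abs_self M)
    · exact (h1 t ht x hx).trans (le_abs_self M)
  obtain ⟨S, hS⟩ : ∃ S : ℝ, S = r₀ ^ 2 := ⟨_, rfl⟩
  have hS0 : 0 < S := by rw [hS]; positivity
  have hS1 : S < 1 := by rw [hS]; nlinarith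
  have hrS : √S = r₀ := by rw [hS, Real.sqrt_sq hr₀.le]
  obtain ⟨c, hc, hup⟩ := psi_up (m := m) (D := D) hk0 hm0.le hD0.le hT hr₀ hr₁
  obtain ⟨U, hU0, hU⟩ := h.u_bdd hT
  -- the function of time
  obtain ⟨q, hq⟩ : ∃ q : ℝ, q = a * (1 + m + D) := ⟨_, rfl⟩
  have hq0 : 0 < q := by rw [hq]; positivity
  obtain ⟨B', hB'⟩ : ∃ B' : ℝ → ℝ, B' = fun s => b s ^ 2 / (4 * ν) + B s := ⟨_, rfl⟩
  have hB'c : ContinuousOn B' (Ico 0 T) := by rw [hB']; exact ((hb.pow 2).div_const _).add hB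
  have hB'0 : ∀ t ∈ Ico 0 T, 0 ≤ B' t := fun t ht => by
    rw [hB']
    have := hB0 t ht
    positivity
  obtain ⟨Q, hQ⟩ : ∃ Q : ℝ, Q = max 1 (1 / (4 * ν)) := ⟨_, rfl⟩
  have hQ1 : 1 ≤ Q := by rw [hQ]; exact le_max_left _ _
  have hQ2 : 1 / (4 * ν) ≤ Q := by rw [hQ]; exact le_max_right _ _
  obtain ⟨J, hJ⟩ : ∃ J : ℝ → ℝ, J = fun τ => ∫ r in (0 : ℝ)..τ, B' r := ⟨_, rfl⟩
  have hJc : ContinuousOn J (Ico 0 T) := by rw [hJ]; exact prim_contI hB'c
  have hJd : ∀ τ ∈ Ioo 0 T, HasDerivAt J (B' τ) τ := fun τ hτ => by rw [hJ]; exact prim_hd hB'c hτ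
  have hJ0 : ∀ τ ∈ Ico 0 T, 0 ≤ J τ := fun τ hτ => by rw [hJ]; exact prim_nonneg hB'0 hτ
  have hJI : ∀ τ ∈ Ico 0 T, J τ ≤ Q * I := fun τ hτ => by
    have hsub : Icc 0 τ ⊆ Ico 0 T := fun s hs => ⟨hs.1, hs.2.trans_lt hτ.2⟩
    have h1 : J τ ≤ ∫ s in (0 : ℝ)..τ, Q * (b s ^ 2 + B s) := by
      rw [hJ]
      apply intervalIntegral.integral_mono_on hτ.1
      · apply ContinuousOn.intervalIntegrable
        rw [uIcc_of_le hτ.1]
        exact hB'c.mono hsub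
      · apply ContinuousOn.intervalIntegrable
        rw [uIcc_of_le hτ.1]
        exact continuousOn_const.mul (((hb.pow 2).add hB).mono hsub)
      · intro s hs
        rw [hB']
        have h2 := hB0 s (hsub hs)
        have h3 : b s ^ 2 / (4 * ν) ≤ Q * b s ^ 2 := by
          calc b s ^ 2 / (4 * ν) = 1 / (4 * ν) * b s ^ 2 := by ring
            _ ≤ Q * b s ^ 2 := by gcongr
        have h4 : B s ≤ Q * B s := le_mul_of_one_le_left h2 hQ1
        show b s ^ 2 / (4 * ν) + B s ≤ Q * (b s ^ 2 + B s)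
        linarith
    rw [intervalIntegral.integral_const_mul] at h1
    exact h1.trans (mul_le_mul_of_nonneg_left (hI τ hτ) (by linarith))
  obtain ⟨E, hE⟩ : ∃ E : ℝ → ℝ, E = fun τ => Real.exp (q * J τ) := ⟨_, rfl⟩
  have hE0 : ∀ τ, 0 < E τ := fun τ => by rw [hE]; exact Real.exp_pos _
  have hE1 : ∀ τ ∈ Ico 0 T, 1 ≤ E τ := fun τ hτ => by
    rw [hE]
    exact Real.one_le_exp (mul_nonneg hq0.le (hJ0 τ hτ))
  have hEI : ∀ τ ∈ Ico 0 T, E τ ≤ Real.exp (q * (Q * I)) := fun τ hτ => by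
    rw [hE]
    exact Real.exp_le_exp.2 (mul_le_mul_of_nonneg_left (hJI τ hτ) hq0.le)
  have hEc : ContinuousOn E (Ico 0 T) := by
    rw [hE]
    exact (continuousOn_const.mul hJc).rexp
  have hEd : ∀ τ ∈ Ioo 0 T, HasDerivAt E (q * B' τ * E τ) τ := by
    intro τ hτ
    rw [hE]
    exact (((hJd τ hτ).const_mul q).exp).congr_deriv (by ring)
  obtain ⟨Ψ, hΨ⟩ : ∃ Ψ : ℝ → ℝ → ℝ, Ψ = fun t σ => Lb a k m D T t σ := ⟨_, rfl⟩
  have hΨ0 : ∀ t < T, ∀ σ, 0 ≤ σ → σ ≤ 1 → 0 ≤ Ψ t σ := fun t ht σ hσ hσ1 => by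
    rw [hΨ]
    exact Lb_nonneg hk0 hm0.le hD0.le ht hσ hσ1
  obtain ⟨Φ, hΦ⟩ : ∃ Φ : ℝ → ℝ → ℝ, Φ = fun t σ => id (1 * (E t * Ψ t σ)) := ⟨_, rfl⟩
  have hΦ' : ∀ t σ, Φ t σ = E t * Ψ t σ := fun t σ => by
    rw [hΦ]
    show id (1 * (E t * Ψ t σ)) = _
    rw [id, one_mul]
  have hlogneg : ∀ σ, 0 < σ → σ ≤ S → 0 < -Real.log √σ := by
    intro σ hσ hσS
    have h1 : √σ < 1 := by
      rw [Real.sqrt_lt' one_pos]
      linarith
    have := Real.log_neg (Real.sqrt_pos.2 hσ) h1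
    linarith
  have hca : 0 < c ^ a := Real.rpow_pos_of_pos hc _
  -- lower bound
  have hlow : ∀ t ∈ Ico 0 T, ∀ σ, 0 < σ → σ ≤ S →
      (c ^ a)⁻¹ * (-Real.log √σ) ^ (-a) ≤ Φ t σ := by
    intro t ht σ hσ hσS
    have hL := hlogneg σ hσ hσS
    have h1 : √σ ≤ r₀ := by
      rw [← hrS]
      exact Real.sqrt_le_sqrt hσS
    have h2 := hup t ht σ hσ h1
    have h3 := psi_low hk0 hm0.le hD0.le ht.2 hσ
    have h4 : 0 < -tht k m D (T - t) σ := by
      have h5 : Real.log √σ = Real.log σ / 2 := Real.log_sqrt hσ.le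
      rw [h5] at hL
      linarith
    have h5 : Ψ t σ = (-tht k m D (T - t) σ) ^ (-a) := by
      rw [hΨ]
      show Lb a k m D T t σ = _
      unfold Lb
      rw [log_bt hk0 ht.2 hσ]
    have h6 : (c * (-Real.log √σ)) ^ (-a) ≤ Ψ t σ := by
      rw [h5]
      exact Real.rpow_le_rpow_of_nonpos h4 h2 (by linarith)
    have h7 : (c * (-Real.log √σ)) ^ (-a) = (c ^ a)⁻¹ * (-Real.log √σ) ^ (-a) := by
      rw [Real.mul_rpow hc.le hL.le, Real.rpow_neg hc.le]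
    rw [← h7, hΦ']
    refine h6.trans ?_
    have h8 : 0 ≤ Ψ t σ := hΨ0 t ht.2 σ hσ.le (by linarith)
    exact le_mul_of_one_le_left h8 (hE1 t ht)
  -- upper bound
  have hupp : ∀ t ∈ Ico 0 T, ∀ σ, 0 < σ → σ ≤ S →
      Φ t σ ≤ Real.exp (q * (Q * I)) * (-Real.log √σ) ^ (-a) := by
    intro t ht σ hσ hσS
    have hL := hlogneg σ hσ hσS
    have h3 := psi_low hk0 hm0.le hD0.le ht.2 hσ
    have h5 : Real.log √σ = Real.log σ / 2 := Real.log_sqrt hσ.le
    have h6 : Ψ t σ ≤ (-Real.log √σ) ^ (-a) := by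
      rw [hΨ]
      show Lb a k m D T t σ ≤ _
      unfold Lb
      rw [log_bt hk0 ht.2 hσ]
      apply Real.rpow_le_rpow_of_nonpos hL _ (by linarith)
      rw [h5]
      linarith
    rw [hΦ']
    exact mul_le_mul (hEI t ht) h6 (hΨ0 t ht.2 σ hσ.le (by linarith)) (Real.exp_pos _).le
  have hl0 : 0 < -Real.log r₀ := by
    have := Real.log_neg hr₀ hr₁
    linarith
  obtain ⟨A, hA⟩ : ∃ A : ℝ, A = |K| * c ^ a + |M| * c ^ a * (-Real.log r₀) ^ a
    + 2 * U * a ^ a * c ^ a := ⟨_, rfl⟩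
  have p1 : 0 ≤ |K| * c ^ a := by positivity
  have p2 : 0 ≤ |M| * c ^ a * (-Real.log r₀) ^ a := by positivity
  have p3 : 0 ≤ 2 * U * a ^ a * c ^ a := by positivity
  have hA0 : 0 ≤ A := by rw [hA]; linarith
  have hsS : ∀ x : V, sg x ≤ S ↔ √(sg x) ≤ r₀ := by
    intro x
    rw [Real.sqrt_le_left hr₀.le, hS]
  have hcmp := cmpL0 hν h (S := S) hA0 (Φ := Φ)
    (fun t ht σ hσ => by
      rw [hΦ']
      exact mul_nonneg (hE0 t).le (hΨ0 t ht.2 σ hσ.1 (by linarith [hσ.2])))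
    (by
      have h1 : ContinuousOn (fun z : ℝ × ℝ => E z.1 * Ψ z.1 z.2) (Ico 0 T ×ˢ Icc 0 S) := by
        rw [hΨ]
        exact (hEc.comp continuousOn_fst fun z hz => hz.1).mul
          (Lb_cont ha hk0 hm0.le hD0.le hS1)
      exact h1.congr fun z _ => hΦ' z.1 z.2)
    (fun x hx => by
      rcases eq_or_lt_of_le (sg_nonneg x) with h2 | h2
      · have h3 : |circ (u 0) x| ≤ 0 := by
          refine (circ_le (u 0) x).trans ?_
          rw [← h2, Real.sqrt_zero]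
          simp
        refine h3.trans (mul_nonneg hA0 ?_)
        rw [hΦ']
        exact mul_nonneg (hE0 0).le (hΨ0 0 hT _ h2.le (by linarith))
      · have hL := hlogneg _ h2 hx
        have hρ0 := Real.sqrt_pos.2 h2
        have hρ1 : √(sg x) < 1 := lt_of_le_of_lt ((hsS x).1 hx) hr₁
        have h3 : |circ (u 0) x| ≤ 2 * √(sg x) * U := by
          refine (circ_le (u 0) x).trans ?_
          have := hU 0 ⟨le_rfl, le_rfl⟩ x
          gcongr
        have h4 := mul_log_rpow ha hρ0 hρ1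
        have h5 := hlow 0 ⟨le_rfl, hT⟩ (sg x) h2 hx
        have h6 : (-Real.log √(sg x)) ^ a * (-Real.log √(sg x)) ^ (-a) = 1 := by
          rw [← Real.rpow_add hL]
          simp
        have h7 : 0 < (-Real.log √(sg x)) ^ (-a) := Real.rpow_pos_of_pos hL _
        have h8 : √(sg x) ≤ a ^ a * (-Real.log √(sg x)) ^ (-a) := by
          calc √(sg x) = √(sg x) * ((-Real.log √(sg x)) ^ a * (-Real.log √(sg x)) ^ (-a)) := by
                rw [h6, mul_one]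
            _ = √(sg x) * (-Real.log √(sg x)) ^ a * (-Real.log √(sg x)) ^ (-a) := by ring
            _ ≤ a ^ a * (-Real.log √(sg x)) ^ (-a) := by gcongr
        calc |circ (u 0) x| ≤ 2 * √(sg x) * U := h3
          _ = 2 * U * √(sg x) := by ring
          _ ≤ 2 * U * (a ^ a * (-Real.log √(sg x)) ^ (-a)) := by gcongr
          _ = 2 * U * a ^ a * c ^ a * ((c ^ a)⁻¹ * (-Real.log √(sg x)) ^ (-a)) := by
            field_simp
          _ ≤ A * ((c ^ a)⁻¹ * (-Real.log √(sg x)) ^ (-a)) := by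
            apply mul_le_mul_of_nonneg_right _ (by positivity)
            rw [hA]
            linarith
          _ ≤ A * Φ 0 (sg x) := mul_le_mul_of_nonneg_left h5 hA0)
    (fun t ht x hx => by
      have h1 : √(sg x) = r₀ := by rw [hx, hrS]
      have h2 := hlow t ht (sg x) (by rw [hx]; exact hS0) hx.le
      rw [h1] at h2
      have h6 : (-Real.log r₀) ^ a * (-Real.log r₀) ^ (-a) = 1 := by
        rw [← Real.rpow_add hl0]
        simp
      calc |circ (u t) x| ≤ |M| := hlatM t ht x h1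
        _ = |M| * ((-Real.log r₀) ^ a * (-Real.log r₀) ^ (-a)) := by rw [h6, mul_one]
        _ = |M| * c ^ a * (-Real.log r₀) ^ a * ((c ^ a)⁻¹ * (-Real.log r₀) ^ (-a)) := by
          field_simp
        _ ≤ A * ((c ^ a)⁻¹ * (-Real.log r₀) ^ (-a)) := by
          apply mul_le_mul_of_nonneg_right _ (by positivity)
          rw [hA]
          linarith
        _ ≤ A * Φ t (sg x) := mul_le_mul_of_nonneg_left h2 hA0)
    (fun t ht x hx0 hxS hbigx => by
      have htI : t ∈ Ico 0 T := Ioo_subset_Ico_self ht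
      have hL := hlogneg _ hx0 hxS.le
      have h1 := hlow t htI (sg x) hx0 hxS.le
      have h7 : 0 < (-Real.log √(sg x)) ^ (-a) := Real.rpow_pos_of_pos hL _
      have h2 : K * (-Real.log √(sg x)) ^ (-a) ≤ A * Φ t (sg x) := by
        calc K * (-Real.log √(sg x)) ^ (-a) ≤ |K| * (-Real.log √(sg x)) ^ (-a) := by
              gcongr
              exact le_abs_self K
          _ = |K| * c ^ a * ((c ^ a)⁻¹ * (-Real.log √(sg x)) ^ (-a)) := by field_simp
          _ ≤ A * ((c ^ a)⁻¹ * (-Real.log √(sg x)) ^ (-a)) := by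
            apply mul_le_mul_of_nonneg_right _ (by positivity)
            rw [hA]
            linarith
          _ ≤ A * Φ t (sg x) := mul_le_mul_of_nonneg_left h1 hA0
      have hρ0 : 0 < √(sg x) := Real.sqrt_pos.2 hx0
      have hρS : √(sg x) < r₀ := by
        rw [← hrS]
        exact Real.sqrt_lt_sqrt hx0.le hxS
      have hw := hcond t ht x hρ0 hρS (h2.trans_lt hbigx)
      have hsq : √(sg x) ^ 2 = sg x := Real.sq_sqrt hx0.le
      have hw' : -(2 * ν) + ((a + 1) * (1 + m + D) + 1) * ν / (-Real.log √(sg x))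
          - C * √(sg x) / √(T - t) - b t * √(sg x) - B t * sg x
          ≤ x 0 * u t x 0 + x 1 * u t x 1 := by
        refine le_trans (le_of_eq ?_) hw
        rw [hsq]
        ring
      have hmj := lb_maj hν hC hk hD hm ha le_rfl ht.2 hx0 (by linarith) (hB0 t htI) hw'
      have hmj' : ∃ χ χ₁ c₂ d ζ, Maj Ψ t (sg x) χ χ₁ c₂ d ζ ∧
          4 * ν * sg x * c₂ - 2 * (x 0 * u t x 0 + x 1 * u t x 1) * χ₁ (sg x)
            ≤ d + q * B' t * Ψ t (sg x) := by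
        rw [hΨ, hq, hB']
        exact hmj
      rw [hΦ]
      refine maj_comp (F := id) (concaveOn_id (convex_Ici 0)) (monotone_id.monotoneOn _) one_pos
        (hEd t ht) hE0 ?_ ?_ ?_ hmj'
      · have h3 : 0 < (c ^ a)⁻¹ * (-Real.log √(sg x)) ^ (-a) := by positivity
        have h4 := h3.trans_le h1
        rw [hΦ'] at h4
        exact (mul_pos_iff_of_pos_left (hE0 t)).1 h4
      · filter_upwards [lt_mem_nhds hx0, gt_mem_nhds (show sg x < 1 by linarith)] with r hr hr1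
        exact hΨ0 t ht.2 r hr.le hr1.le
      · filter_upwards [self_mem_nhdsWithin] with τ hτ
        exact hΨ0 τ (lt_trans hτ ht.2) _ hx0.le (by linarith))
  refine ⟨A * Real.exp (q * (Q * I)), fun t ht x hx0 hx => ?_⟩
  have hxS := (hsS x).2 hx
  have hx0' : 0 < sg x := Real.sqrt_pos.1 hx0
  calc |circ (u t) x| ≤ A * Φ t (sg x) := hcmp t ht x hxS
    _ ≤ A * (Real.exp (q * (Q * I)) * (-Real.log √(sg x)) ^ (-a)) :=
      mul_le_mul_of_nonneg_left (hupp t ht _ hx0' hxS) hA0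
    _ = _ := by ring

end Pool.Agent.NH42.AX
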