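import Pool.Agent.NH42.AX.Conc
import Pool.Agent.TH305.AX.BVgen

/-!
Axisymmetric flows: one-sided bounds of type I of the radial velocity (helper42).
-/

set_option autoImplicit false

open MeasureTheory Set Metric Filter Topology
open scoped ContDiff

namespace Pool.Agent.NH42.AX

open H459R3.NS W221.NS Pool.Agent.TH305.DR Pool.Agent.TH305.AX

section conc
variable {F : ℝ → ℝ}

lemma conc_scale (hc : ConcaveOn ℝ (Ici 0) F) (h0 : 0 ≤ F 0) {l x : ℝ} (hl : 0 ≤ l)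
    (hl1 : l ≤ 1) (hx : 0 ≤ x) : l * F x ≤ F (l * x) := by
  have h1 := hc.2 (show x ∈ Ici (0 : ℝ) from hx) (mem_Ici.2 le_rfl : (0 : ℝ) ∈ Ici (0 : ℝ)) hl
    (show (0 : ℝ) ≤ 1 - l by linarith) (by ring)
  simp only [smul_eq_mul, mul_zero, add_zero] at h1
  have h2 : 0 ≤ (1 - l) * F 0 := mul_nonneg (by linarith) h0
  linarith

lemma conc_scale' (hc : ConcaveOn ℝ (Ici 0) F) (h0 : 0 ≤ F 0) {l x : ℝ} (hl : 1 ≤ l)
    (hx : 0 ≤ x) : F (l * x) ≤ l * F x := by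
  have hl0 : 0 < l := by linarith
  have h1 := conc_scale hc h0 (l := 1 / l) (x := l * x) (by positivity)
    (by rw [div_le_one hl0]; exact hl) (by positivity)
  have e : 1 / l * (l * x) = x := by field_simp
  rw [e] at h1
  have h2 := mul_le_mul_of_nonneg_left h1 hl0.le
  have e2 : l * (1 / l * F (l * x)) = F (l * x) := by field_simp
  rw [e2] at h2
  exact h2

end conc

section bar
variable {ν C α Λ γ y₁ X₁ : ℝ}

lemma bar_nonneg (h : Par ν C α Λ γ y₁ X₁) {T t σ : ℝ} (ht : t < T) (hσ : 0 ≤ σ) :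
    0 ≤ Bar T C α Λ γ y₁ X₁ t σ := by
  rcases eq_or_lt_of_le hσ with h1 | h1
  · rw [← h1]
    unfold Bar gb
    rw [zero_div, Real.sqrt_zero, if_pos h.y1_pos.le]
    unfold gin
    rw [Real.zero_rpow (by have := h.hα; positivity), mul_zero, neg_zero, Real.exp_zero, sub_self,
      mul_zero]
  · exact (bar_pos h ht h1).le

lemma bar_cont' (h : Par ν C α Λ γ y₁ X₁) {T : ℝ} {D : Set ℝ} :
    ContinuousOn (fun z : ℝ × ℝ => Bar T C α Λ γ y₁ X₁ z.1 z.2) (Ico 0 T ×ˢ D) := by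
  have hne : ∀ z ∈ Ico 0 T ×ˢ D, T - z.1 ≠ 0 := by
    intro z hz
    have : 0 < T - z.1 := by linarith [hz.1.2]
    exact this.ne'
  have h1 : ContinuousOn (fun z : ℝ × ℝ => (T - z.1) ^ (γ / 2)) (Ico 0 T ×ˢ D) :=
    ContinuousOn.rpow_const (by fun_prop) fun z hz => Or.inl (hne z hz)
  have h2 : ContinuousOn (fun z : ℝ × ℝ => √(z.2 / (T - z.1))) (Ico 0 T ×ˢ D) :=
    ContinuousOn.sqrt (continuous_snd.continuousOn.div (by fun_prop) hne)
  unfold Bar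
  exact h1.mul ((gb_cont h).comp_continuousOn h2)

end bar

/-- The maximum principle. -/
lemma maxP {ν T : ℝ} {u : ℝ → V → V} {p : ℝ → V → ℝ} (hν : 0 < ν) (h : BSol ν T u p) {M : ℝ}
    (hin : ∀ x, |circ (u 0) x| ≤ M) : ∀ t ∈ Ico 0 T, ∀ x, |circ (u t) x| ≤ M := by
  intro t ht x
  have hM : 0 ≤ M := (abs_nonneg _).trans (hin 0)
  apply le_of_forall_pos_le_add
  intro δ hδ
  have h1 := cmpB hν h (A := M) (δ := δ) hM hδ (Φ := fun _ _ => 1) (fun _ _ _ _ => zero_le_one)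
    continuousOn_const (fun y => by have := hin y; linarith)
    (fun τ _ y _ _ => ⟨fun _ => 1, fun _ => 0, 0, 0, fun _ => 1,
      ⟨contDiffAt_const, Eventually.of_forall fun r => hasDerivAt_const r _,
        hasDerivAt_const _ _, Eventually.of_forall fun _ => le_rfl, rfl,
        Eventually.of_forall fun _ => le_rfl, rfl, hasDerivAt_const _ _⟩, by simp⟩) t ht x
  linarith

lemma prim_contI {B : ℝ → ℝ} {T : ℝ} (hB : ContinuousOn B (Ico 0 T)) :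
    ContinuousOn (fun τ => ∫ r in (0 : ℝ)..τ, B r) (Ico 0 T) := by
  intro τ hτ
  obtain ⟨τ', hτ'1, hτ'2⟩ := exists_between hτ.2
  have h1 := prim_cont hB (t := τ') ⟨hτ.1.trans hτ'1.le, hτ'2⟩
  refine (h1 τ ⟨hτ.1, hτ'1.le⟩).mono_of_mem_nhdsWithin ?_
  rw [mem_nhdsWithin]
  exact ⟨Iio τ', isOpen_Iio, hτ'1, fun y hy => ⟨hy.2.1, hy.1.le⟩⟩

lemma young {y b s σ : ℝ} (hy : 0 < y) (hs : σ = s ^ 2) :
    b * s ≤ y + 1 / (4 * y) * (b ^ 2 * σ) := by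
  have h5 : y + 1 / (4 * y) * (b ^ 2 * σ) - b * s = (2 * y - b * s) ^ 2 / (4 * y) := by
    rw [hs]
    field_simp
    ring
  have h6 : 0 ≤ (2 * y - b * s) ^ 2 / (4 * y) := by positivity
  linarith

/-- The result for one-sided bounds of type I. -/
theorem typeOne {ν μ C : ℝ} (hν : 0 < ν) (hμ : 0 < μ) (hC : 0 ≤ C) :
    ∃ β : ℝ, 0 < β ∧ ∀ (T : ℝ) (u : ℝ → V → V) (p : ℝ → V → ℝ), BSol ν T u p →
    ∀ (F b B : ℝ → ℝ) (M r₀ I : ℝ), 0 < r₀ → ConcaveOn ℝ (Ici 0) F → MonotoneOn F (Ici 0) →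
      ContinuousOn F (Ici 0) → 0 ≤ F 0 → (∀ x, 0 < x → 0 < F x) →
      ContinuousOn b (Ico 0 T) → ContinuousOn B (Ico 0 T) → (∀ t ∈ Ico 0 T, 0 ≤ B t) →
      (∀ t ∈ Ico 0 T, ∫ s in (0 : ℝ)..t, (b s ^ 2 + B s) ≤ I) →
      ((∀ x, |circ (u 0) x| ≤ M) ∨
        ∀ t ∈ Ico 0 T, ∀ x, √(sg x) = r₀ → |circ (u t) x| ≤ M) →
      (∀ t ∈ Ioo 0 T, ∀ x, 0 < √(sg x) → √(sg x) < r₀ → F √(sg x) < |circ (u t) x| →
        -((2 - μ) * ν) - (C / √(T - t) + b t) * √(sg x) - B t * √(sg x) ^ 2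
          ≤ x 0 * u t x 0 + x 1 * u t x 1) →
      ∃ A : ℝ, ∀ t ∈ Ico 0 T, ∀ x, √(sg x) ≤ r₀ → |circ (u t) x| ≤ A * F (√(sg x) ^ β) := by
  obtain ⟨α, hα⟩ : ∃ α : ℝ, α = min μ 1 / 4 := ⟨_, rfl⟩
  have hm0 : 0 < min μ 1 := lt_min hμ one_pos
  have hα0 : 0 < α := by rw [hα]; positivity
  have hα2 : α < 1 / 2 := by
    have : min μ 1 ≤ 1 := min_le_right _ _
    rw [hα]; linarith
  have hαμ : 2 * α < μ := by
    have : min μ 1 ≤ μ := min_le_left _ _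
    rw [hα]; linarith
  obtain ⟨Λ, γ, y₁, X₁, hP⟩ := par_exists hν hC hα0 hα2
  have hγ := hP.g_pos
  have hL := hP.L_pos
  refine ⟨γ, hγ, ?_⟩
  intro T u p h F b B M r₀ I hr₀ hFc hFm hFcont hF0 hFpos hb hB hB0 hI hM hcond
  rcases le_or_gt T 0 with hT | hT
  · exact ⟨0, fun t ht => absurd (ht.1.trans_lt ht.2) (not_lt.2 hT)⟩
  -- the bound on the lateral boundary
  have hlatM : ∀ t ∈ Ico 0 T, ∀ x, √(sg x) = r₀ → |circ (u t) x| ≤ |M| := by
    intro t ht x hx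
    rcases hM with h1 | h1
    · exact (maxP hν h h1 t ht x).trans (le_abs_self M)
    · exact (h1 t ht x hx).trans (le_abs_self M)
  obtain ⟨S, hS⟩ : ∃ S : ℝ, S = r₀ ^ 2 := ⟨_, rfl⟩
  have hS0 : 0 < S := by rw [hS]; positivity
  have hrS : √S = r₀ := by rw [hS, Real.sqrt_sq hr₀.le]
  obtain ⟨m, hm, hlow⟩ := bar_low2 hP hT hS0
  obtain ⟨U, hU0, hU⟩ := h.u_bdd hT
  obtain ⟨y, hy⟩ : ∃ y : ℝ, y = (μ - 2 * α) * ν := ⟨_, rfl⟩
  have hy0 : 0 < y := by rw [hy]; exact mul_pos (by linarith) hν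
  obtain ⟨K, hK⟩ : ∃ K : ℝ, K = max 1 (1 / (4 * y)) := ⟨_, rfl⟩
  have hK1 : 1 ≤ K := by rw [hK]; exact le_max_left _ _
  have hK2 : 1 / (4 * y) ≤ K := by rw [hK]; exact le_max_right _ _
  have hK0 : 0 < K := by linarith
  obtain ⟨B', hB'⟩ : ∃ B' : ℝ → ℝ, B' = fun s => b s ^ 2 + B s := ⟨_, rfl⟩
  have hB'c : ContinuousOn B' (Ico 0 T) := by rw [hB']; exact (hb.pow 2).add hB
  have hB'0 : ∀ t ∈ Ico 0 T, 0 ≤ B' t := fun t ht => by
    rw [hB']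
    have := hB0 t ht
    positivity
  obtain ⟨J, hJ⟩ : ∃ J : ℝ → ℝ, J = fun τ => ∫ r in (0 : ℝ)..τ, B' r := ⟨_, rfl⟩
  have hJc : ContinuousOn J (Ico 0 T) := by rw [hJ]; exact prim_contI hB'c
  have hJd : ∀ τ ∈ Ioo 0 T, HasDerivAt J (B' τ) τ := fun τ hτ => by rw [hJ]; exact prim_hd hB'c hτ
  have hJ0 : ∀ τ ∈ Ico 0 T, 0 ≤ J τ := fun τ hτ => by rw [hJ]; exact prim_nonneg hB'0 hτ
  have hJI : ∀ τ ∈ Ico 0 T, J τ ≤ I := fun τ hτ => by rw [hJ, hB']; exact hI τ hτ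
  obtain ⟨E, hE⟩ : ∃ E : ℝ → ℝ, E = fun τ => Real.exp (K * J τ) := ⟨_, rfl⟩
  have hE0 : ∀ τ, 0 < E τ := fun τ => by rw [hE]; exact Real.exp_pos _
  have hE1 : ∀ τ ∈ Ico 0 T, 1 ≤ E τ := fun τ hτ => by
    rw [hE]
    exact Real.one_le_exp (mul_nonneg hK0.le (hJ0 τ hτ))
  have hEI : ∀ τ ∈ Ico 0 T, E τ ≤ Real.exp (K * I) := fun τ hτ => by
    rw [hE]
    exact Real.exp_le_exp.2 (mul_le_mul_of_nonneg_left (hJI τ hτ) hK0.le)
  have hEc : ContinuousOn E (Ico 0 T) := by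
    rw [hE]
    exact (continuousOn_const.mul hJc).rexp
  have hEd : ∀ τ ∈ Ioo 0 T, HasDerivAt E (K * B' τ * E τ) τ := by
    intro τ hτ
    rw [hE]
    exact (((hJd τ hτ).const_mul K).exp).congr_deriv (by ring)
  obtain ⟨κ, hκ⟩ : ∃ κ : ℝ, κ = S ^ (1 / 2 - α) / m := ⟨_, rfl⟩
  have hκ0 : 0 < κ := by rw [hκ]; positivity
  obtain ⟨Ψ, hΨ⟩ : ∃ Ψ : ℝ → ℝ → ℝ, Ψ = fun t σ => Bar T C α Λ γ y₁ X₁ t σ := ⟨_, rfl⟩
  have hΨ0 : ∀ t ∈ Ico 0 T, ∀ σ, 0 ≤ σ → 0 ≤ Ψ t σ := fun t ht σ hσ => by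
    rw [hΨ]
    exact bar_nonneg hP ht.2 hσ
  obtain ⟨Φ, hΦ⟩ : ∃ Φ : ℝ → ℝ → ℝ, Φ = fun t σ => F (κ * (E t * Ψ t σ)) := ⟨_, rfl⟩
  have harg : ∀ t ∈ Ico 0 T, ∀ σ, 0 ≤ σ → 0 ≤ κ * (E t * Ψ t σ) := fun t ht σ hσ =>
    mul_nonneg hκ0.le (mul_nonneg (hE0 t).le (hΨ0 t ht σ hσ))
  have hFnn : ∀ x, 0 ≤ x → 0 ≤ F x := fun x hx =>
    hF0.trans (hFm (mem_Ici.2 le_rfl : (0 : ℝ) ∈ Ici (0 : ℝ)) hx hx)
  -- the barrier is above `F`
  have hbig : ∀ t ∈ Ico 0 T, ∀ σ ∈ Icc 0 S, F √σ ≤ Φ t σ := by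
    intro t ht σ hσ
    rw [hΦ]
    apply hFm (Real.sqrt_nonneg σ) (harg t ht σ hσ.1)
    rcases eq_or_lt_of_le hσ.1 with h1 | h1
    · rw [← h1, Real.sqrt_zero]
      exact harg t ht 0 le_rfl
    · have h2 := hlow t ht σ ⟨h1, hσ.2⟩
      have h3 : √σ = σ ^ (1 / 2 - α) * σ ^ α := by
        rw [← Real.rpow_add h1, Real.sqrt_eq_rpow]
        congr 1
        ring
      have h4 : σ ^ (1 / 2 - α) ≤ S ^ (1 / 2 - α) := Real.rpow_le_rpow h1.le hσ.2 (by linarith)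
      have h5 : 0 < σ ^ α := Real.rpow_pos_of_pos h1 _
      have h6 : Ψ t σ ≤ E t * Ψ t σ := le_mul_of_one_le_left (hΨ0 t ht σ hσ.1) (hE1 t ht)
      calc √σ = σ ^ (1 / 2 - α) * σ ^ α := h3
        _ ≤ S ^ (1 / 2 - α) * σ ^ α := by gcongr
        _ = κ * (m * σ ^ α) := by rw [hκ]; field_simp
        _ ≤ κ * Ψ t σ := by
          apply mul_le_mul_of_nonneg_left _ hκ0.le
          rw [hΨ]
          exact h2
        _ ≤ κ * (E t * Ψ t σ) := by gcongr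
  have hFr : 0 < F r₀ := hFpos r₀ hr₀
  obtain ⟨A, hA⟩ : ∃ A : ℝ, A = 1 + |M| / F r₀ + 2 * U * r₀ / F r₀ := ⟨_, rfl⟩
  have hA1 : |M| / F r₀ ≤ A := by
    have : 0 ≤ 2 * U * r₀ / F r₀ := by positivity
    rw [hA]; linarith
  have hA2 : 2 * U * r₀ / F r₀ ≤ A := by
    have : 0 ≤ |M| / F r₀ := by positivity
    rw [hA]; linarith
  have hA3 : 1 ≤ A := by
    have : 0 ≤ |M| / F r₀ := by positivity
    have : 0 ≤ 2 * U * r₀ / F r₀ := by positivity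
    rw [hA]; linarith
  have hA0 : 0 ≤ A := by linarith
  have hsS : ∀ x : V, sg x ≤ S ↔ √(sg x) ≤ r₀ := by
    intro x
    rw [Real.sqrt_le_left hr₀.le, hS]
  have hcmp := cmpL0 hν h (S := S) hA0 (Φ := Φ)
    (fun t ht σ hσ => by
      rw [hΦ]
      exact hFnn _ (harg t ht σ hσ.1))
    (by
      rw [hΦ]
      have h1 : ContinuousOn (fun z : ℝ × ℝ => κ * (E z.1 * Ψ z.1 z.2)) (Ico 0 T ×ˢ Icc 0 S) := by
        rw [hΨ]
        exact continuousOn_const.mul ((hEc.comp continuousOn_fst fun z hz => hz.1).mul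
          (bar_cont' hP))
      exact hFcont.comp h1 fun z hz => harg z.1 hz.1 z.2 hz.2.1)
    (fun x hx => by
      have hρ := (hsS x).1 hx
      have h0 := Real.sqrt_nonneg (sg x)
      have h1 := hbig 0 ⟨le_rfl, hT⟩ (sg x) ⟨sg_nonneg x, hx⟩
      have h2 := conc_scale hFc hF0 (l := √(sg x) / r₀) (x := r₀) (by positivity)
        (by rw [div_le_one hr₀]; exact hρ) hr₀.le
      have e1 : √(sg x) / r₀ * r₀ = √(sg x) := by field_simp
      rw [e1] at h2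
      have h3 : |circ (u 0) x| ≤ 2 * √(sg x) * U := by
        refine (circ_le (u 0) x).trans ?_
        have := hU 0 ⟨le_rfl, le_rfl⟩ x
        gcongr
      calc |circ (u 0) x| ≤ 2 * √(sg x) * U := h3
        _ = 2 * U * r₀ / F r₀ * (√(sg x) / r₀ * F r₀) := by field_simp
        _ ≤ A * (√(sg x) / r₀ * F r₀) := by
          apply mul_le_mul_of_nonneg_right hA2
          positivity
        _ ≤ A * Φ 0 (sg x) := mul_le_mul_of_nonneg_left (h2.trans h1) hA0)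
    (fun t ht x hx => by
      have h1 : √(sg x) = r₀ := by rw [hx, hrS]
      have h2 := hbig t ht (sg x) ⟨sg_nonneg x, hx.le⟩
      rw [h1] at h2
      calc |circ (u t) x| ≤ |M| := hlatM t ht x h1
        _ = |M| / F r₀ * F r₀ := by field_simp
        _ ≤ A * F r₀ := mul_le_mul_of_nonneg_right hA1 hFr.le
        _ ≤ A * Φ t (sg x) := mul_le_mul_of_nonneg_left h2 hA0)
    (fun t ht x hx0 hxS hbigx => by
      have htI : t ∈ Ico 0 T := Ioo_subset_Ico_self ht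
      have h1 := hbig t htI (sg x) ⟨hx0.le, hxS.le⟩
      have h2 : F √(sg x) ≤ A * Φ t (sg x) := by
        have h3 : 0 ≤ Φ t (sg x) := (hFnn _ (Real.sqrt_nonneg _)).trans h1
        nlinarith
      have hρ0 : 0 < √(sg x) := Real.sqrt_pos.2 hx0
      have hρS : √(sg x) < r₀ := by
        rw [← hrS]
        exact Real.sqrt_lt_sqrt hx0.le hxS
      have hw := hcond t ht x hρ0 hρS (h2.trans_lt hbigx)
      have hsq : √(sg x) ^ 2 = sg x := Real.sq_sqrt hx0.le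
      have hBt := hB0 t htI
      have hw' : -((2 - 2 * α) * ν) - C * √(sg x) / √(T - t) - K * B' t * sg x
          ≤ x 0 * u t x 0 + x 1 * u t x 1 := by
        refine le_trans ?_ hw
        have e1 : C * √(sg x) / √(T - t) = C / √(T - t) * √(sg x) := by ring
        have h4 : b t * √(sg x) ≤ y + 1 / (4 * y) * (b t ^ 2 * sg x) := young hy0 hsq.symm
        have h7 : 1 / (4 * y) * (b t ^ 2 * sg x) ≤ K * (b t ^ 2 * sg x) := by
          apply mul_le_mul_of_nonneg_right hK2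
          positivity
        have h8 : B t * sg x ≤ K * (B t * sg x) := le_mul_of_one_le_left (by positivity) hK1
        have e2 : K * B' t * sg x = K * (b t ^ 2 * sg x) + K * (B t * sg x) := by
          rw [hB']
          ring
        rw [e1, e2, hsq]
        have e3 : -((2 - 2 * α) * ν) = -((2 - μ) * ν) - y := by rw [hy]; ring
        rw [e3]
        linarith
      have hmaj : ∃ χ χ₁ c₂ d ζ, Maj Ψ t (sg x) χ χ₁ c₂ d ζ ∧
          4 * ν * sg x * c₂ - 2 * (x 0 * u t x 0 + x 1 * u t x 1) * χ₁ (sg x)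
            ≤ d + K * B' t * Ψ t (sg x) := by
        have hB'nn : 0 ≤ K * B' t := mul_nonneg hK0.le (hB'0 t htI)
        rw [hΨ]
        rcases le_or_gt (√(sg x / (T - t))) y₁ with h5 | h5
        · exact inner_maj hP ht.2 hx0 h5 hB'nn hw'
        · exact outer_maj hP ht.2 hx0 h5 hB'nn hw'
      rw [hΦ]
      refine maj_comp hFc hFm hκ0 (hEd t ht) hE0 ?_ ?_ ?_ hmaj
      · rw [hΨ]
        exact bar_pos hP ht.2 hx0
      · filter_upwards [lt_mem_nhds hx0] with r hr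
        exact hΨ0 t htI r hr.le
      · filter_upwards [self_mem_nhdsWithin] with τ hτ
        rw [hΨ]
        exact bar_nonneg hP (lt_trans hτ ht.2) hx0.le)
  obtain ⟨l, hl⟩ : ∃ l : ℝ, l = max 1 (κ * (Real.exp (K * I) * (Λ + 1))) := ⟨_, rfl⟩
  have hl1 : 1 ≤ l := by rw [hl]; exact le_max_left _ _
  have hl2 : κ * (Real.exp (K * I) * (Λ + 1)) ≤ l := by rw [hl]; exact le_max_right _ _
  refine ⟨A * l, fun t ht x hx => ?_⟩
  have hxS := (hsS x).2 hx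
  have h1 := hcmp t ht x hxS
  have h0 := Real.sqrt_nonneg (sg x)
  have hργ : 0 ≤ √(sg x) ^ γ := Real.rpow_nonneg h0 _
  rcases eq_or_lt_of_le (sg_nonneg x) with h2 | h2
  · have h3 : |circ (u t) x| ≤ 0 := by
      refine (circ_le (u t) x).trans ?_
      rw [← h2, Real.sqrt_zero]
      simp
    refine h3.trans ?_
    have := hFnn _ hργ
    positivity
  · have h3 : Φ t (sg x) ≤ l * F (√(sg x) ^ γ) := by
      rw [hΦ]
      refine le_trans ?_ (conc_scale' hFc hF0 hl1 hργ)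
      apply hFm (harg t ht _ h2.le) (mul_nonneg (by linarith) hργ)
      have h4 := bar_up hP ht.2 h2
      have h5 : (sg x) ^ (γ / 2) = √(sg x) ^ γ := by
        rw [← sqrt_pow h2.le]
        congr 1
        ring
      rw [h5] at h4
      have h6 := hEI t ht
      have h7 : E t * Ψ t (sg x) ≤ Real.exp (K * I) * ((Λ + 1) * √(sg x) ^ γ) := by
        apply mul_le_mul h6 _ (hΨ0 t ht _ h2.le) (Real.exp_pos _).le
        rw [hΨ]
        exact h4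
      calc κ * (E t * Ψ t (sg x)) ≤ κ * (Real.exp (K * I) * ((Λ + 1) * √(sg x) ^ γ)) := by gcongr
        _ = κ * (Real.exp (K * I) * (Λ + 1)) * √(sg x) ^ γ := by ring
        _ ≤ l * √(sg x) ^ γ := mul_le_mul_of_nonneg_right hl2 hργ
    calc |circ (u t) x| ≤ A * Φ t (sg x) := h1
      _ ≤ A * (l * F (√(sg x) ^ γ)) := mul_le_mul_of_nonneg_left h3 hA0
      _ = A * l * F (√(sg x) ^ γ) := by ring

end Pool.Agent.NH42.AX
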